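import Pool.Agent.SU21.Rep

/-!
# SU21, module CountA: lattice counts, the generic case (helper41)
-/

set_option autoImplicit false

namespace Pool.Agent.SU21

open Matrix

lemma card_box (A : Finset ℤ) (B : ℝ) (hB : 0 ≤ B) (h : ∀ x ∈ A, |(x : ℝ)| ≤ B) :
    (A.card : ℝ) ≤ 2 * B + 1 := by
  have hsub : A ⊆ Finset.Icc (-⌊B⌋) ⌊B⌋ := by
    intro x hx
    have h1 := abs_le.mp (h x hx)
    rw [Finset.mem_Icc]
    constructor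
    · have : -x ≤ ⌊B⌋ := Int.le_floor.mpr (by push_cast; linarith)
      linarith
    · exact Int.le_floor.mpr h1.2
  have h0 : 0 ≤ ⌊B⌋ := Int.floor_nonneg.mpr hB
  have h2 : (A.card : ℝ) ≤ ((Finset.Icc (-⌊B⌋) ⌊B⌋).card : ℝ) := by
    exact_mod_cast Finset.card_le_card hsub
  rw [Int.card_Icc] at h2
  have h3 : (((⌊B⌋ + 1 - -⌊B⌋).toNat : ℕ) : ℝ) = 2 * (⌊B⌋ : ℝ) + 1 := by
    have : (((⌊B⌋ + 1 - -⌊B⌋).toNat : ℕ) : ℤ) = 2 * ⌊B⌋ + 1 := by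
      rw [Int.toNat_of_nonneg (by linarith)]; ring
    exact_mod_cast this
  rw [h3] at h2
  have h4 := Int.floor_le B
  linarith

lemma card_cong (A : Finset ℤ) (B : ℝ) (m : ℕ) (hm : 0 < m) (hB : 0 ≤ B)
    (h1 : ∀ x ∈ A, ∀ y ∈ A, (m : ℤ) ∣ x - y) (h2 : ∀ x ∈ A, |(x : ℝ)| ≤ B) :
    (A.card : ℝ) ≤ 2 * B / m + 1 := by
  have hmr : (0 : ℝ) < m := by exact_mod_cast hm
  have hq : 0 ≤ 2 * B / m := by positivity
  have hc : A.card ≤ ⌊2 * B / m⌋₊ + 1 := by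
    apply card_window A m _ hm h1
    intro x hx y hy
    have hx' := abs_le.mp (h2 x hx)
    have hy' := abs_le.mp (h2 y hy)
    have h3 := Nat.lt_floor_add_one (2 * B / m)
    have h4 : 2 * B < m * ((⌊2 * B / m⌋₊ : ℝ) + 1) := by
      rw [div_lt_iff₀ hmr] at h3; linarith
    have h5 : ((x - y : ℤ) : ℝ) < ((m * (⌊2 * B / m⌋₊ + 1 : ℕ) : ℤ) : ℝ) := by
      push_cast; linarith
    exact_mod_cast h5
  have h6 := Nat.floor_le hq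
  have h7 : (A.card : ℝ) ≤ (⌊2 * B / m⌋₊ : ℝ) + 1 := by exact_mod_cast hc
  linarith

lemma card_cong_mul (A : Finset ℤ) (B : ℝ) (m : ℕ) (hm : 0 < m) (hB : 0 ≤ B) (e : ℤ) (he : 0 < e)
    (K : ℤ) (h1 : ∀ x ∈ A, (m : ℤ) ∣ e * x - K) (h2 : ∀ x ∈ A, |(x : ℝ)| ≤ B) :
    (A.card : ℝ) ≤ 2 * (e * B) / m + 1 := by
  have her : (0 : ℝ) < e := by exact_mod_cast he
  have hcard : (A.image (fun x => e * x)).card = A.card := by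
    apply Finset.card_image_of_injective
    intro x y hxy
    exact mul_left_cancel₀ he.ne' hxy
  rw [← hcard]
  apply card_cong _ (e * B) m hm (by positivity)
  · intro x hx y hy
    obtain ⟨x', hx', rfl⟩ := Finset.mem_image.mp hx
    obtain ⟨y', hy', rfl⟩ := Finset.mem_image.mp hy
    have := dvd_sub (h1 x' hx') (h1 y' hy')
    exact this.trans ⟨1, by ring⟩
  · intro x hx
    obtain ⟨x', hx', rfl⟩ := Finset.mem_image.mp hx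
    push_cast
    rw [abs_mul, abs_of_pos her]
    exact mul_le_mul_of_nonneg_left (h2 x' hx') her.le

/-- Parameter tuples `(d1, t1, t2, s)`. -/
abbrev Tup : Type := ℤ × ℤ × ℤ × ℤ

def fa (Q : ℕ) (θ : Tup) : ℤ := θ.1 ^ 2 + Q ^ 2 * θ.2.2.2 ^ 2 - 2 * θ.2.2.1 * θ.2.2.2

def fb (θ : Tup) : ℤ := 2 * θ.2.2.2 + θ.2.1 * θ.2.2.1

def fc (Q : ℕ) (θ : Tup) : ℤ := 4 * (θ.1 - θ.2.1) + Q ^ 2 * (θ.1 ^ 2 - θ.2.1 ^ 2) +
  (Q ^ 2 * θ.2.2.2 - θ.2.2.1) ^ 2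

def phi (Q : ℕ) (t1 t2 : ℤ) : ℤ := 4 * t1 + Q ^ 2 * t1 ^ 2 + t2 ^ 2

/-- The box conditions. -/
structure Box (Q : ℕ) (T : ℝ) (θ : Tup) : Prop where
  b1 : |(θ.1 : ℝ)| ≤ 2 * (T / Q ^ 2)
  b2 : |(θ.2.1 : ℝ)| ≤ 4 * (T / Q ^ 2)
  b3 : |(θ.2.2.1 : ℝ)| ≤ 2 * (T / Q)
  b4 : |(θ.2.2.2 : ℝ)| ≤ 3 * (T / Q ^ 3)
  ba : (fa Q θ : ℝ) ≤ 4 * (T / Q ^ 2) ^ 2
  bc : (fc Q θ : ℝ) ≤ 4 * (T / Q) ^ 2

/-- The content condition. -/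
def Cont (Q : ℕ) (θ : Tup) (l : ℕ) : Prop :=
  (l : ℤ) ^ 2 ∣ fa Q θ ∧ (l : ℤ) ^ 2 ∣ 2 * fb θ ∧ (l : ℤ) ^ 2 ∣ fc Q θ

instance (Q : ℕ) (θ : Tup) (l : ℕ) : Decidable (Cont Q θ l) := by
  unfold Cont; infer_instance

lemma Cont.d1 {Q : ℕ} {θ : Tup} {l : ℕ} (h : Cont Q θ l) :
    (l : ℤ) ^ 2 ∣ 4 * θ.1 - (4 * θ.2.1 + Q ^ 2 * θ.2.1 ^ 2 - θ.2.2.1 ^ 2) := by
  obtain ⟨⟨x, hx⟩, -, ⟨z, hz⟩⟩ := h
  refine ⟨z - Q ^ 2 * x, ?_⟩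
  simp only [fa, fc] at hx hz
  linear_combination hz - (Q : ℤ) ^ 2 * hx

lemma Cont.s1 {Q : ℕ} {θ : Tup} {l : ℕ} (h : Cont Q θ l) :
    (l : ℤ) ^ 2 ∣ 4 * θ.2.2.2 - (-2 * θ.2.1 * θ.2.2.1) := by
  obtain ⟨-, ⟨y, hy⟩, -⟩ := h
  refine ⟨y, ?_⟩
  simp only [fb] at hy
  linear_combination hy

lemma Cont.phi {Q : ℕ} {θ : Tup} {l : ℕ} (h : Cont Q θ l) :
    (l : ℤ) ∣ phi Q θ.2.1 θ.2.2.1 := by
  obtain ⟨x, hx⟩ := h.d1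
  obtain ⟨y, hy⟩ := h.s1
  obtain ⟨⟨z, hz⟩, -, -⟩ := h
  have h2 : (l : ℤ) ^ 2 ∣ (Pool.Agent.SU21.phi Q θ.2.1 θ.2.2.1) ^ 2 := by
    simp only [fa] at hz
    simp only [Pool.Agent.SU21.phi]
    set d1 := θ.1
    set t1 := θ.2.1
    set t2 := θ.2.2.1
    set s := θ.2.2.2
    -- 4 d1 = K1 + l^2 x, 4 s = -2 t1 t2 + l^2 y, a = l^2 z
    have e1 : 4 * d1 = (4 * t1 + (Q : ℤ) ^ 2 * t1 ^ 2 - t2 ^ 2) + (l : ℤ) ^ 2 * x := by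
      linear_combination hx
    have e2 : 4 * s = -2 * t1 * t2 + (l : ℤ) ^ 2 * y := by linear_combination hy
    have e3 : (4 * d1) ^ 2 + (Q : ℤ) ^ 2 * (4 * s) ^ 2 - 8 * t2 * (4 * s) =
        (l : ℤ) ^ 2 * (16 * z) := by linear_combination 16 * hz
    rw [e1, e2] at e3
    refine ⟨16 * z - (2 * (4 * t1 + (Q : ℤ) ^ 2 * t1 ^ 2 - t2 ^ 2) * x + (l : ℤ) ^ 2 * x ^ 2)
      - (Q : ℤ) ^ 2 * (-4 * t1 * t2 * y + (l : ℤ) ^ 2 * y ^ 2) + 8 * t2 * y, ?_⟩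
    linear_combination e3
  exact (Int.pow_dvd_pow_iff (by norm_num)).mp h2

/-- Number of `(t1, t2)` with `phi = 0`. -/
lemma card_phi_zero (Q : ℕ) (hQ : 1 ≤ Q) (A : Finset (ℤ × ℤ)) (hA : ∀ ρ ∈ A, phi Q ρ.1 ρ.2 = 0) :
    A.card ≤ 10 := by
  classical
  have hQ1 : (1 : ℤ) ≤ (Q : ℤ) ^ 2 := by
    have : (1 : ℤ) ≤ Q := by exact_mod_cast hQ
    nlinarith
  have h10 : ((Finset.Icc (-4 : ℤ) 0) ×ˢ (Finset.univ : Finset Bool)).card = 10 := by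
    rw [Finset.card_product]; rfl
  rw [← h10]
  refine Finset.card_le_card_of_injOn (fun ρ => (ρ.1, decide (0 ≤ ρ.2))) ?_ ?_
  · intro ρ hρ
    have h := hA ρ hρ
    simp only [phi] at h
    simp only [Finset.coe_product, Set.mem_prod, Finset.mem_coe, Finset.mem_Icc,
      Finset.mem_univ, and_true]
    constructor
    · by_contra hc
      push Not at hc
      nlinarith [sq_nonneg ρ.2, mul_nonneg (show (0:ℤ) ≤ (Q:ℤ)^2 - 1 by linarith) (sq_nonneg ρ.1)]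
    · by_contra hc
      push Not at hc
      nlinarith [sq_nonneg ρ.2, mul_nonneg (show (0:ℤ) ≤ (Q:ℤ)^2 by linarith) (sq_nonneg ρ.1)]
  · intro ρ hρ ρ' hρ' he
    have h := hA ρ hρ
    have h' := hA ρ' hρ'
    simp only [phi] at h h'
    simp only [Prod.mk.injEq, decide_eq_decide] at he
    obtain ⟨e1, e2⟩ := he
    rw [e1] at h
    have hsq : ρ.2 ^ 2 = ρ'.2 ^ 2 := by linarith
    have h3 : ρ.2 = ρ'.2 := by
      rcases sq_eq_sq_iff_eq_or_eq_neg.mp hsq with h3 | h3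
      · exact h3
      · rcases le_or_gt 0 ρ.2 with h4 | h4
        · have := e2.mp h4; omega
        · have : ¬ (0 ≤ ρ'.2) := fun h5 => by have := e2.mpr h5; omega
          omega
    exact Prod.ext e1 h3

end Pool.Agent.SU21
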