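import Pool.Agent.SU21.CountA

/-!
# SU21, module CountB: the sum over the generic tuples (helper41)
-/

set_option autoImplicit false

namespace Pool.Agent.SU21

open Matrix

/-- For fixed `(t1, t2)` and `l`: number of tuples with content condition. -/
lemma card_fibre (Q : ℕ) (hQ : 1 ≤ Q) (T : ℝ) (hT : 1 ≤ T) (ρ : ℤ × ℤ) (l : ℕ) (hl : 1 ≤ l)
    (F : Finset Tup) (hbox : ∀ θ ∈ F, Box Q T θ) (hρ : ∀ θ ∈ F, (θ.2.1, θ.2.2.1) = ρ)
    (hc : ∀ θ ∈ F, Cont Q θ l) :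
    (F.card : ℝ) ≤ (16 * (T / Q ^ 2) / (l : ℝ) ^ 2 + 1) * (24 * (T / Q ^ 3) / (l : ℝ) ^ 2 + 1) := by
  classical
  have hQr : (0 : ℝ) < Q := by exact_mod_cast hQ
  have hinj : (F.image (fun θ : Tup => (θ.1, θ.2.2.2))).card = F.card := by
    apply Finset.card_image_of_injOn
    intro θ hθ θ' hθ' he
    simp only [Prod.mk.injEq] at he
    have h1 := hρ θ hθ
    have h2 := hρ θ' hθ'
    rw [← h2, Prod.mk.injEq] at h1
    exact Prod.ext he.1 (Prod.ext h1.1 (Prod.ext h1.2 he.2))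
  have hsub : F.image (fun θ : Tup => (θ.1, θ.2.2.2)) ⊆
      (F.image (fun θ : Tup => θ.1)) ×ˢ (F.image (fun θ : Tup => θ.2.2.2)) := by
    intro q hq
    obtain ⟨θ, hθ, rfl⟩ := Finset.mem_image.mp hq
    rw [Finset.mem_product]
    exact ⟨Finset.mem_image_of_mem _ hθ, Finset.mem_image_of_mem (fun θ : Tup => θ.2.2.2) hθ⟩
  have h1 : (F.card : ℝ) ≤ ((F.image (fun θ : Tup => θ.1)).card : ℝ) *
      ((F.image (fun θ : Tup => θ.2.2.2)).card : ℝ) := by
    rw [← hinj]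
    have := Finset.card_le_card hsub
    rw [Finset.card_product] at this
    exact_mod_cast this
  have hl2 : 0 < l ^ 2 := by positivity
  have hA : ((F.image (fun θ : Tup => θ.1)).card : ℝ) ≤ 16 * (T / Q ^ 2) / (l : ℝ) ^ 2 + 1 := by
    have := card_cong_mul (F.image (fun θ : Tup => θ.1)) (2 * (T / Q ^ 2)) (l ^ 2) hl2
      (by positivity) 4 (by norm_num) (4 * ρ.1 + Q ^ 2 * ρ.1 ^ 2 - ρ.2 ^ 2) ?_ ?_
    · refine this.trans (le_of_eq ?_)
      push_cast; ring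
    · intro x hx
      obtain ⟨θ, hθ, rfl⟩ := Finset.mem_image.mp hx
      have h2 := (hc θ hθ).d1
      have h3 := hρ θ hθ
      rw [Prod.ext_iff] at h3
      simp only at h3
      rw [h3.1, h3.2] at h2
      push_cast
      exact h2
    · intro x hx
      obtain ⟨θ, hθ, rfl⟩ := Finset.mem_image.mp hx
      exact (hbox θ hθ).b1
  have hB : ((F.image (fun θ : Tup => θ.2.2.2)).card : ℝ) ≤
      24 * (T / Q ^ 3) / (l : ℝ) ^ 2 + 1 := by
    have := card_cong_mul (F.image (fun θ : Tup => θ.2.2.2)) (3 * (T / Q ^ 3)) (l ^ 2) hl2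
      (by positivity) 4 (by norm_num) (-2 * ρ.1 * ρ.2) ?_ ?_
    · refine this.trans (le_of_eq ?_)
      push_cast; ring
    · intro x hx
      obtain ⟨θ, hθ, rfl⟩ := Finset.mem_image.mp hx
      have h2 := (hc θ hθ).s1
      have h3 := hρ θ hθ
      rw [Prod.ext_iff] at h3
      simp only at h3
      rw [h3.1, h3.2] at h2
      push_cast
      exact h2
    · intro x hx
      obtain ⟨θ, hθ, rfl⟩ := Finset.mem_image.mp hx
      exact (hbox θ hθ).b4
  refine h1.trans ?_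
  exact mul_le_mul hA hB (Nat.cast_nonneg _) (by positivity)

/-- The weight of one `l`. -/
lemma weight_le (Q : ℕ) (hQ : 1 ≤ Q) (T : ℝ) (hT : 1 ≤ T) (l : ℕ) (hl : 1 ≤ l)
    (hlL : (l : ℝ) ≤ 2 * (T / Q ^ 2)) :
    (l : ℝ) * ((16 * (T / Q ^ 2) / (l : ℝ) ^ 2 + 1) * (24 * (T / Q ^ 3) / (l : ℝ) ^ 2 + 1)) ≤
      42 * (T / Q ^ 2) + 384 * ((T / Q ^ 2) * (T / Q ^ 3)) := by
  have hQr : (1 : ℝ) ≤ Q := by exact_mod_cast hQ
  have hQ0 : (0 : ℝ) < Q := by linarith
  have hl1 : (1 : ℝ) ≤ l := by exact_mod_cast hl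
  have hl0 : (0 : ℝ) < l := by linarith
  set X := T / (Q : ℝ) ^ 2 with hX
  set Z := T / (Q : ℝ) ^ 3 with hZ
  have hX0 : 0 ≤ X := by positivity
  have hZ0 : 0 ≤ Z := by positivity
  have hZX : Z ≤ X := by
    rw [hX, hZ]
    apply div_le_div_of_nonneg_left (by linarith) (by positivity)
    exact pow_le_pow_right₀ hQr (by norm_num)
  have e : (l : ℝ) * ((16 * X / (l : ℝ) ^ 2 + 1) * (24 * Z / (l : ℝ) ^ 2 + 1)) =
      l + (16 * X) / l + (24 * Z) / l + 384 * (X * Z) / (l : ℝ) ^ 3 := by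
    field_simp
    ring
  rw [e]
  have h1 : (16 * X) / l ≤ 16 * X := div_le_self (by positivity) hl1
  have h2 : (24 * Z) / l ≤ 24 * Z := div_le_self (by positivity) hl1
  have h3 : 384 * (X * Z) / (l : ℝ) ^ 3 ≤ 384 * (X * Z) :=
    div_le_self (by positivity) (one_le_pow₀ hl1)
  linarith

/-- The sum over the tuples with positive `fa`. -/
lemma sum_generic (Q : ℕ) (hQ : 1 ≤ Q) (T : ℝ) (hT : 1 ≤ T) (Th : ℝ) (hTh1 : 1 ≤ Th)
    (hTh : ∀ n : ℕ, n ≠ 0 → (n : ℝ) ≤ 1000 * T ^ 8 → (n.divisors.card : ℝ) ≤ Th)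
    (hX : 1 / 2 ≤ T / (Q : ℝ) ^ 2) (F : Finset Tup) (hbox : ∀ θ ∈ F, Box Q T θ) :
    ∑ θ ∈ F, ∑ l ∈ (Finset.Icc 1 ⌊2 * (T / (Q : ℝ) ^ 2)⌋₊).filter (fun l => Cont Q θ l), (l : ℝ)
      ≤ 100 * Th * ((T / Q) * (T / Q ^ 2)) * (42 * (T / Q ^ 2) + 384 * ((T / Q ^ 2) * (T / Q ^ 3))) := by
  classical
  have hQr : (1 : ℝ) ≤ Q := by exact_mod_cast hQ
  have hQ0 : (0 : ℝ) < Q := by linarith
  set X := T / (Q : ℝ) ^ 2 with hXd
  set Y := T / (Q : ℝ) with hYd
  set M := 42 * X + 384 * (X * (T / (Q : ℝ) ^ 3)) with hM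
  have hX0 : 0 ≤ X := by positivity
  have hXY : X ≤ Y := by
    rw [hXd, hYd]
    apply div_le_div_of_nonneg_left (by linarith) hQ0
    nlinarith
  have hY : 1 / 2 ≤ Y := hX.trans hXY
  have hM0 : 0 ≤ M := by positivity
  set L0 := ⌊2 * X⌋₊ with hL0
  have hL0r : (L0 : ℝ) ≤ 2 * X := Nat.floor_le (by positivity)
  set pr : Tup → ℤ × ℤ := fun θ => (θ.2.1, θ.2.2.1) with hpr
  -- rewriting with indicator
  have e1 : ∀ θ : Tup, ∑ l ∈ (Finset.Icc 1 L0).filter (fun l => Cont Q θ l), (l : ℝ) =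
      ∑ l ∈ Finset.Icc 1 L0, if Cont Q θ l then (l : ℝ) else 0 := by
    intro θ; rw [Finset.sum_filter]
  have hfib : ∀ ρ ∈ F.image pr, ∑ θ ∈ F.filter (fun θ => pr θ = ρ),
      ∑ l ∈ (Finset.Icc 1 L0).filter (fun l => Cont Q θ l), (l : ℝ) ≤
      ((Finset.Icc 1 L0).filter (fun l : ℕ => (l : ℤ) ∣ phi Q ρ.1 ρ.2)).card * M := by
    intro ρ hρ
    simp_rw [e1]
    rw [Finset.sum_comm]
    have h1 : ∀ l ∈ Finset.Icc 1 L0, ∑ θ ∈ F.filter (fun θ => pr θ = ρ),
        (if Cont Q θ l then (l : ℝ) else 0) ≤ if (l : ℤ) ∣ phi Q ρ.1 ρ.2 then M else 0 := by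
      intro l hl
      rw [Finset.mem_Icc] at hl
      rw [← Finset.sum_filter, Finset.sum_const, nsmul_eq_mul]
      split_ifs with hd
      · have hc := card_fibre Q hQ T hT ρ l hl.1
          ((F.filter (fun θ => pr θ = ρ)).filter (fun θ => Cont Q θ l))
          (fun θ hθ => hbox θ (Finset.mem_filter.mp (Finset.mem_filter.mp hθ).1).1)
          (fun θ hθ => (Finset.mem_filter.mp (Finset.mem_filter.mp hθ).1).2)
          (fun θ hθ => (Finset.mem_filter.mp hθ).2)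
        have hlL : (l : ℝ) ≤ 2 * (T / Q ^ 2) := by
          have : (l : ℝ) ≤ L0 := by exact_mod_cast hl.2
          exact this.trans hL0r
        have hw := weight_le Q hQ T hT l hl.1 hlL
        have hl0 : (0 : ℝ) ≤ l := Nat.cast_nonneg _
        calc _ ≤ ((16 * (T / Q ^ 2) / (l : ℝ) ^ 2 + 1) * (24 * (T / Q ^ 3) / (l : ℝ) ^ 2 + 1)) *
              (l : ℝ) := mul_le_mul_of_nonneg_right hc hl0
          _ = (l : ℝ) * ((16 * (T / Q ^ 2) / (l : ℝ) ^ 2 + 1) *
              (24 * (T / Q ^ 3) / (l : ℝ) ^ 2 + 1)) := by ring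
          _ ≤ M := hw
      · have : (F.filter (fun θ => pr θ = ρ)).filter (fun θ => Cont Q θ l) = ∅ := by
          rw [Finset.filter_eq_empty_iff]
          intro θ hθ hcθ
          apply hd
          have h2 := (Finset.mem_filter.mp hθ).2
          rw [← h2]
          exact hcθ.phi
        rw [this]; simp
    refine (Finset.sum_le_sum h1).trans ?_
    rw [← Finset.sum_filter, Finset.sum_const, nsmul_eq_mul]
  have hmaps : ∀ θ ∈ F, pr θ ∈ F.image pr := fun θ hθ => Finset.mem_image_of_mem _ hθ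
  rw [← Finset.sum_fiberwise_of_maps_to hmaps]
  refine (Finset.sum_le_sum hfib).trans ?_
  -- split according to phi = 0
  set R := F.image pr with hR
  rw [← Finset.sum_filter_add_sum_filter_not R (fun ρ => phi Q ρ.1 ρ.2 = 0)]
  have hz : ∑ ρ ∈ R.filter (fun ρ => phi Q ρ.1 ρ.2 = 0),
      (((Finset.Icc 1 L0).filter (fun l : ℕ => (l : ℤ) ∣ phi Q ρ.1 ρ.2)).card : ℝ) * M ≤
      10 * (2 * X * M) := by
    have hc := card_phi_zero Q hQ (R.filter (fun ρ => phi Q ρ.1 ρ.2 = 0))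
      (fun ρ hρ => (Finset.mem_filter.mp hρ).2)
    have hterm : ∀ ρ ∈ R.filter (fun ρ => phi Q ρ.1 ρ.2 = 0),
      (((Finset.Icc 1 L0).filter (fun l : ℕ => (l : ℤ) ∣ phi Q ρ.1 ρ.2)).card : ℝ) * M ≤
        2 * X * M := by
      intro ρ _
      apply mul_le_mul_of_nonneg_right _ hM0
      have : ((Finset.Icc 1 L0).filter (fun l : ℕ => (l : ℤ) ∣ phi Q ρ.1 ρ.2)).card ≤ L0 := by
        refine (Finset.card_filter_le _ _).trans ?_
        simp
      have h2 : (((Finset.Icc 1 L0).filter (fun l : ℕ => (l : ℤ) ∣ phi Q ρ.1 ρ.2)).card : ℝ) ≤ L0 := by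
        exact_mod_cast this
      exact h2.trans hL0r
    refine (Finset.sum_le_sum hterm).trans ?_
    rw [Finset.sum_const, nsmul_eq_mul]
    apply mul_le_mul_of_nonneg_right _ (by positivity)
    exact_mod_cast hc
  have hnz : ∑ ρ ∈ R.filter (fun ρ => ¬ phi Q ρ.1 ρ.2 = 0),
      (((Finset.Icc 1 L0).filter (fun l : ℕ => (l : ℤ) ∣ phi Q ρ.1 ρ.2)).card : ℝ) * M ≤
      (10 * X) * (6 * Y) * (Th * M) := by
    have hterm : ∀ ρ ∈ R.filter (fun ρ => ¬ phi Q ρ.1 ρ.2 = 0),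
      (((Finset.Icc 1 L0).filter (fun l : ℕ => (l : ℤ) ∣ phi Q ρ.1 ρ.2)).card : ℝ) * M ≤
        Th * M := by
      intro ρ hρ
      apply mul_le_mul_of_nonneg_right _ hM0
      obtain ⟨hρR, hne⟩ := Finset.mem_filter.mp hρ
      obtain ⟨θ, hθ, rfl⟩ := Finset.mem_image.mp hρR
      have hb := hbox θ hθ
      set n := (phi Q (pr θ).1 (pr θ).2).natAbs with hn
      have hn0 : n ≠ 0 := Int.natAbs_ne_zero.mpr hne
      have hnle : (n : ℝ) ≤ 1000 * T ^ 8 := by
        have e2 : (n : ℝ) = |((phi Q (pr θ).1 (pr θ).2 : ℤ) : ℝ)| := by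
          rw [hn, Nat.cast_natAbs, Int.cast_abs]
        rw [e2]
        have h1 : |(θ.2.1 : ℝ)| * Q ≤ 4 * T := by
          have := hb.b2
          calc |(θ.2.1 : ℝ)| * Q ≤ (4 * (T / Q ^ 2)) * Q :=
                mul_le_mul_of_nonneg_right this hQ0.le
            _ = 4 * (T / Q) := by field_simp
            _ ≤ 4 * T := by
                have := div_le_self (show (0 : ℝ) ≤ T by linarith) hQr
                linarith
        have h1' : |(θ.2.1 : ℝ)| ≤ 4 * T := by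
          refine le_trans ?_ h1
          exact le_mul_of_one_le_right (abs_nonneg _) hQr
        have h2 : |(θ.2.2.1 : ℝ)| ≤ 2 * T := by
          refine hb.b3.trans ?_
          have := div_le_self (show (0 : ℝ) ≤ T by linarith) hQr
          linarith
        have h3 : ((phi Q (pr θ).1 (pr θ).2 : ℤ) : ℝ) =
            4 * (θ.2.1 : ℝ) + ((θ.2.1 : ℝ) * Q) ^ 2 + (θ.2.2.1 : ℝ) ^ 2 := by
          simp only [phi, hpr]; push_cast; ring
        rw [h3]
        have h4 : |(θ.2.1 : ℝ) * Q| ≤ 4 * T := by rw [abs_mul, abs_of_pos hQ0]; exact h1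
        have h5 : ((θ.2.1 : ℝ) * Q) ^ 2 ≤ (4 * T) ^ 2 := by
          rw [← sq_abs]; gcongr
        have h6 : (θ.2.2.1 : ℝ) ^ 2 ≤ (2 * T) ^ 2 := by
          rw [← sq_abs]; gcongr
        have h7 := abs_le.mp h1'
        have hT2 : T ≤ T ^ 8 := le_self_pow₀ hT (by norm_num)
        have hT3 : T ^ 2 ≤ T ^ 8 := pow_le_pow_right₀ hT (by norm_num)
        rw [abs_le]
        constructor
        · nlinarith [sq_nonneg ((θ.2.1 : ℝ) * Q), sq_nonneg (θ.2.2.1 : ℝ)]
        · nlinarith [sq_nonneg ((θ.2.1 : ℝ) * Q), sq_nonneg (θ.2.2.1 : ℝ)]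
      refine le_trans ?_ (hTh n hn0 hnle)
      have hsub : (Finset.Icc 1 L0).filter (fun l : ℕ => (l : ℤ) ∣ phi Q (pr θ).1 (pr θ).2) ⊆
          n.divisors := by
        intro l hl
        rw [Finset.mem_filter] at hl
        rw [Nat.mem_divisors]
        exact ⟨Int.natCast_dvd.mp hl.2, hn0⟩
      exact_mod_cast Finset.card_le_card hsub
    refine (Finset.sum_le_sum hterm).trans ?_
    rw [Finset.sum_const, nsmul_eq_mul]
    apply mul_le_mul_of_nonneg_right _ (by positivity)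
    have hc1 : (R.filter (fun ρ => ¬ phi Q ρ.1 ρ.2 = 0)).card ≤
        (F.image (fun θ : Tup => θ.2.1)).card * (F.image (fun θ : Tup => θ.2.2.1)).card := by
      rw [← Finset.card_product]
      apply Finset.card_le_card
      intro ρ hρ
      obtain ⟨θ, hθ, rfl⟩ := Finset.mem_image.mp (Finset.mem_filter.mp hρ).1
      rw [Finset.mem_product]
      exact ⟨Finset.mem_image_of_mem (fun θ : Tup => θ.2.1) hθ,
        Finset.mem_image_of_mem (fun θ : Tup => θ.2.2.1) hθ⟩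
    have hA := card_box (F.image (fun θ : Tup => θ.2.1)) (4 * X) (by positivity) (by
      intro x hx
      obtain ⟨θ, hθ, rfl⟩ := Finset.mem_image.mp hx
      exact (hbox θ hθ).b2)
    have hB := card_box (F.image (fun θ : Tup => θ.2.2.1)) (2 * Y) (by positivity) (by
      intro x hx
      obtain ⟨θ, hθ, rfl⟩ := Finset.mem_image.mp hx
      exact (hbox θ hθ).b3)
    have hc2 : ((R.filter (fun ρ => ¬ phi Q ρ.1 ρ.2 = 0)).card : ℝ) ≤
        ((F.image (fun θ : Tup => θ.2.1)).card : ℝ) *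
        ((F.image (fun θ : Tup => θ.2.2.1)).card : ℝ) := by exact_mod_cast hc1
    refine hc2.trans ?_
    have hA' : ((F.image (fun θ : Tup => θ.2.1)).card : ℝ) ≤ 10 * X := by linarith
    have hB' : ((F.image (fun θ : Tup => θ.2.2.1)).card : ℝ) ≤ 6 * Y := by linarith
    exact mul_le_mul hA' hB' (Nat.cast_nonneg _) (by positivity)
  have hfin : 10 * (2 * X * M) + (10 * X) * (6 * Y) * (Th * M) ≤ 100 * Th * (Y * X) * M := by
    have h1 : X * M ≤ 2 * (Th * (Y * X) * M) := by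
      have : X ≤ 2 * (Th * (Y * X)) := by
        have h2 : 1 ≤ 2 * (Th * Y) := by nlinarith
        calc X = 1 * X := by ring
          _ ≤ (2 * (Th * Y)) * X := mul_le_mul_of_nonneg_right h2 hX0
          _ = 2 * (Th * (Y * X)) := by ring
      calc X * M ≤ (2 * (Th * (Y * X))) * M := mul_le_mul_of_nonneg_right this hM0
        _ = 2 * (Th * (Y * X) * M) := by ring
    nlinarith
  linarith

end Pool.Agent.SU21
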