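import Pool.Agent.SU21.CountB

/-!
# SU21, module CountC: the three cases (helper41)
-/

set_option autoImplicit false

namespace Pool.Agent.SU21

open Matrix

/-- Square of the modulus of `delta`. -/
def dn (Q : ℕ) (θ : Tup) : ℤ :=
  (1 + Q ^ 2 * θ.1) ^ 2 + (Q * (Q ^ 2 * θ.2.2.2 - θ.2.2.1)) ^ 2

/-- Admissible data. -/
structure Ok (Q : ℕ) (T : ℝ) (x : Tup × (V3 × V3)) : Prop where
  box : Box Q T x.1
  ga : dot x.2.1 x.2.1 = fa Q x.1
  gb : dot x.2.1 x.2.2 = fb x.1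
  gc : dot x.2.2 x.2.2 = fc Q x.1
  big : 1 < dn Q x.1
  dsz : (dn Q x.1 : ℝ) ≤ T ^ 2

lemma dot_self_nonneg (u : V3) : 0 ≤ dot u u := by
  simp only [dot]; nlinarith [sq_nonneg u.1, sq_nonneg u.2.1, sq_nonneg u.2.2]

lemma dot_self_eq_zero {u : V3} (h : dot u u = 0) : u = 0 := by
  simp only [dot] at h
  have h1 : u.1 = 0 := by nlinarith [sq_nonneg u.1, sq_nonneg u.2.1, sq_nonneg u.2.2]
  have h2 : u.2.1 = 0 := by nlinarith [sq_nonneg u.1, sq_nonneg u.2.1, sq_nonneg u.2.2]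
  have h3 : u.2.2 = 0 := by nlinarith [sq_nonneg u.1, sq_nonneg u.2.1, sq_nonneg u.2.2]
  exact Prod.ext h1 (Prod.ext h2 h3)

lemma Ok.disc_nonneg {Q : ℕ} {T : ℝ} {x : Tup × (V3 × V3)} (h : Ok Q T x) :
    0 ≤ fa Q x.1 * fc Q x.1 - fb x.1 ^ 2 := by
  rw [← h.ga, ← h.gb, ← h.gc]
  have := dot_self_nonneg (cross x.2.1 x.2.2)
  have e : dot (cross x.2.1 x.2.2) (cross x.2.1 x.2.2) =
      dot x.2.1 x.2.1 * dot x.2.2 x.2.2 - dot x.2.1 x.2.2 ^ 2 := by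
    simp only [dot, cross]; ring
  rw [← e]; exact this

section
variable (Q : ℕ) (hQ : 1 ≤ Q) (T : ℝ) (hT : 1 ≤ T)

include hQ hT in
lemma half_le_of_fa_pos {θ : Tup} (hb : Box Q T θ) (ha : 0 < fa Q θ) :
    1 / 2 ≤ T / (Q : ℝ) ^ 2 := by
  have h1 : (1 : ℝ) ≤ fa Q θ := by exact_mod_cast ha
  have h2 := hb.ba
  have hQr : (0 : ℝ) < Q := by exact_mod_cast hQ
  have h3 : 0 ≤ T / (Q : ℝ) ^ 2 := by positivity
  nlinarith

include hQ hT in
/-- Case I. -/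
lemma case_one (Th : ℝ) (hTh1 : 1 ≤ Th)
    (hTh : ∀ n : ℕ, n ≠ 0 → (n : ℝ) ≤ 1000 * T ^ 8 → (n.divisors.card : ℝ) ≤ Th)
    (hs1 : ∀ n : ℕ, n ≠ 0 → ∀ S : Finset (ZMod n), (∀ t ∈ S, t ^ 2 = 1) →
      S.card ≤ 2 * n.divisors.card)
    (S : Finset (Tup × (V3 × V3))) (hS : ∀ x ∈ S, Ok Q T x)
    (ha : ∀ x ∈ S, 0 < fa Q x.1) (hd : ∀ x ∈ S, 0 < fa Q x.1 * fc Q x.1 - fb x.1 ^ 2) :
    (S.card : ℝ) ≤ (2 * 3 ^ 9 * Th ^ 4) * (100 * Th * ((T / Q) * (T / Q ^ 2)) *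
      (42 * (T / Q ^ 2) + 384 * ((T / Q ^ 2) * (T / Q ^ 3)))) := by
  classical
  have hQr : (1 : ℝ) ≤ Q := by exact_mod_cast hQ
  have hQ0 : (0 : ℝ) < Q := by linarith
  have hT0 : (0 : ℝ) < T := by linarith
  rcases S.eq_empty_or_nonempty with hE | ⟨x0, hx0⟩
  · rw [hE]; simp only [Finset.card_empty, Nat.cast_zero]; positivity
  have hX := half_le_of_fa_pos Q hQ T hT (hS x0 hx0).box (ha x0 hx0)
  set F := S.image (fun x => x.1) with hF
  have hFbox : ∀ θ ∈ F, Box Q T θ := by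
    intro θ hθ
    obtain ⟨x, hx, rfl⟩ := Finset.mem_image.mp hθ
    exact (hS x hx).box
  have hsum := sum_generic Q hQ T hT Th hTh1 hTh hX F hFbox
  have hcard : (S.card : ℝ) = ∑ θ ∈ F, ((S.filter (fun x => x.1 = θ)).card : ℝ) := by
    rw [Finset.card_eq_sum_card_image (fun x => x.1) S]; push_cast; rfl
  rw [hcard]
  have hterm : ∀ θ ∈ F, ((S.filter (fun x => x.1 = θ)).card : ℝ) ≤ (2 * 3 ^ 9 * Th ^ 4) *
      ∑ l ∈ (Finset.Icc 1 ⌊2 * (T / (Q : ℝ) ^ 2)⌋₊).filter (fun l => Cont Q θ l), (l : ℝ) := by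
    intro θ hθ
    obtain ⟨x1, hx1, hx1θ⟩ := Finset.mem_image.mp hθ
    have hb := hFbox θ hθ
    have haθ : 0 < fa Q θ := by rw [← hx1θ]; exact ha x1 hx1
    have hdθ : 0 < fa Q θ * fc Q θ - fb θ ^ 2 := by rw [← hx1θ]; exact hd x1 hx1
    set A := (fa Q θ).toNat with hA
    set D := (fa Q θ * fc Q θ - fb θ ^ 2).toNat with hD
    have hAz : (A : ℤ) = fa Q θ := Int.toNat_of_nonneg haθ.le
    have hDz : (D : ℤ) = fa Q θ * fc Q θ - fb θ ^ 2 := Int.toNat_of_nonneg hdθ.le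
    have hA0 : A ≠ 0 := by intro h0; rw [h0] at hAz; push_cast at hAz; omega
    have hD0 : D ≠ 0 := by intro h0; rw [h0] at hDz; push_cast at hDz; omega
    set L := ∑ l ∈ (Finset.Icc 1 ⌊2 * (T / (Q : ℝ) ^ 2)⌋₊).filter (fun l => Cont Q θ l), l with hL
    have hinj : ((S.filter (fun x => x.1 = θ)).image (fun x => x.2)).card =
        (S.filter (fun x => x.1 = θ)).card := by
      apply Finset.card_image_of_injOn
      intro x hx y hy hxy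
      have h1 := (Finset.mem_filter.mp hx).2
      have h2 := (Finset.mem_filter.mp hy).2
      exact Prod.ext (h1.trans h2.symm) hxy
    have hrep := rep_bound hs1 (fa Q θ) (fb θ) (fc Q θ) A D hAz hDz hA0 hD0 L (by
      intro l hl1 hl2 hl3
      have hl0 : l ≠ 0 := by
        rintro rfl
        simp at hl1
        omega
      have hlA : (l : ℤ) ^ 2 ≤ fa Q θ := Int.le_of_dvd haθ hl1
      have hlr : (l : ℝ) ^ 2 ≤ (2 * (T / Q ^ 2)) ^ 2 := by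
        have h1 : ((l : ℝ)) ^ 2 ≤ fa Q θ := by exact_mod_cast hlA
        have h2 := hb.ba
        calc _ ≤ _ := h1
          _ ≤ _ := h2
          _ = _ := by ring
      have hlr2 : (l : ℝ) ≤ 2 * (T / Q ^ 2) :=
        le_of_sq_le_sq hlr (by positivity)
      have hmem : l ∈ (Finset.Icc 1 ⌊2 * (T / (Q : ℝ) ^ 2)⌋₊).filter (fun l => Cont Q θ l) := by
        rw [Finset.mem_filter, Finset.mem_Icc]
        exact ⟨⟨Nat.pos_of_ne_zero hl0, Nat.le_floor hlr2⟩, hl1, hl2, hl3⟩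
      exact Finset.single_le_sum (f := fun l => l) (fun _ _ => Nat.zero_le _) hmem)
      ((S.filter (fun x => x.1 = θ)).image (fun x => x.2)) (by
        intro p hp
        obtain ⟨x, hx, rfl⟩ := Finset.mem_image.mp hp
        obtain ⟨hxS, hxθ⟩ := Finset.mem_filter.mp hx
        have := hS x hxS
        rw [← hxθ]
        exact ⟨this.ga, this.gb, this.gc⟩)
    rw [hinj] at hrep
    have hTA : (A.divisors.card : ℝ) ≤ Th := by
      apply hTh A hA0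
      have h1 : (A : ℝ) = fa Q θ := by exact_mod_cast hAz
      rw [h1]
      have h2 := hb.ba
      have h3 : T / (Q : ℝ) ^ 2 ≤ T := div_le_self hT0.le (one_le_pow₀ hQr)
      have h4 : (T / (Q : ℝ) ^ 2) ^ 2 ≤ T ^ 2 := by gcongr
      have h5 : T ^ 2 ≤ T ^ 8 := pow_le_pow_right₀ hT (by norm_num)
      have h6 : 0 ≤ T ^ 8 := by positivity
      linarith
    have hTD : (D.divisors.card : ℝ) ≤ Th := by
      apply hTh D hD0
      have h1 : (D : ℝ) = fa Q θ * fc Q θ - (fb θ : ℝ) ^ 2 := by exact_mod_cast hDz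
      rw [h1]
      have h2 := hb.ba
      have h2' := hb.bc
      have h3 : T / (Q : ℝ) ^ 2 ≤ T := div_le_self hT0.le (one_le_pow₀ hQr)
      have h4 : (T / (Q : ℝ) ^ 2) ^ 2 ≤ T ^ 2 := by gcongr
      have h3' : T / (Q : ℝ) ≤ T := div_le_self hT0.le hQr
      have h4' : (T / (Q : ℝ)) ^ 2 ≤ T ^ 2 := by gcongr
      have h5 : T ^ 4 ≤ T ^ 8 := pow_le_pow_right₀ hT (by norm_num)
      have h6 : 0 ≤ T ^ 8 := by positivity
      have h7 : (0 : ℝ) ≤ fa Q θ := by exact_mod_cast haθ.le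
      have h8 : (fa Q θ : ℝ) * fc Q θ ≤ (4 * T ^ 2) * (4 * T ^ 2) := by
        have h9 : (0 : ℝ) ≤ 4 * T ^ 2 := by positivity
        calc (fa Q θ : ℝ) * fc Q θ ≤ (fa Q θ : ℝ) * (4 * T ^ 2) :=
              mul_le_mul_of_nonneg_left (by linarith) h7
          _ ≤ (4 * T ^ 2) * (4 * T ^ 2) := mul_le_mul_of_nonneg_right (by linarith) h9
      nlinarith [sq_nonneg (fb θ : ℝ)]
    have hrepr : ((S.filter (fun x => x.1 = θ)).card : ℝ) ≤
        (3 ^ 9 * (2 * (D.divisors.card : ℝ))) * ((D.divisors.card : ℝ) * (L : ℝ)) *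
        ((A.divisors.card : ℝ) * (D.divisors.card : ℝ)) := by exact_mod_cast hrep
    have hLr : (L : ℝ) = ∑ l ∈ (Finset.Icc 1 ⌊2 * (T / (Q : ℝ) ^ 2)⌋₊).filter
        (fun l => Cont Q θ l), (l : ℝ) := by rw [hL]; push_cast; rfl
    rw [← hLr]
    have hL0 : (0 : ℝ) ≤ L := Nat.cast_nonneg _
    have hDn : (0 : ℝ) ≤ (D.divisors.card : ℝ) := Nat.cast_nonneg _
    have hAn : (0 : ℝ) ≤ (A.divisors.card : ℝ) := Nat.cast_nonneg _
    calc _ ≤ _ := hrepr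
      _ ≤ (3 ^ 9 * (2 * Th)) * (Th * (L : ℝ)) * (Th * Th) := by gcongr
      _ = _ := by ring
  refine (Finset.sum_le_sum hterm).trans ?_
  rw [← Finset.mul_sum]
  exact mul_le_mul_of_nonneg_left hsum (by positivity)

/-- The identity behind case II. -/
lemma disc_identity (θ : Tup) :
    (dn Q θ - 1) ^ 2 - (((2 + Q ^ 2 * θ.2.1) * (Q ^ 2 * θ.1) -
      (Q * θ.2.2.1) * (Q * (Q ^ 2 * θ.2.2.2 - θ.2.2.1))) ^ 2 +
      ((2 + Q ^ 2 * θ.2.1) * (Q * (Q ^ 2 * θ.2.2.2 - θ.2.2.1)) +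
      (Q * θ.2.2.1) * (2 + Q ^ 2 * θ.1)) ^ 2) =
      (Q : ℤ) ^ 6 * (fa Q θ * fc Q θ - fb θ ^ 2) := by
  simp only [dn, fa, fb, fc]
  ring

end

end Pool.Agent.SU21
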