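import Pool.Agent.SU21.CountC

/-!
# SU21, module CountD: the degenerate cases (helper41)
-/

set_option autoImplicit false

namespace Pool.Agent.SU21

open Matrix

section
variable (Q : ℕ) (hQ : 1 ≤ Q) (T : ℝ) (hT : 1 ≤ T)

include hQ hT in
/-- Case II: degenerate Gram matrix, `fa > 0`. -/
lemma case_two (Th : ℝ) (hTh1 : 1 ≤ Th)
    (hTh : ∀ n : ℕ, n ≠ 0 → (n : ℝ) ≤ 1000 * T ^ 8 → (n.divisors.card : ℝ) ≤ Th)
    (h2 : ∀ n : ℕ, n ≠ 0 → ∀ S : Finset (ℤ × ℤ), (∀ p ∈ S, p.1 ^ 2 + p.2 ^ 2 = (n : ℤ)) →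
      S.card ≤ 8 * n.divisors.card ^ 2)
    (h3 : ∀ (n : ℕ) (Θ : ℝ), 1 ≤ Θ → (∀ m : ℕ, 1 ≤ m → m ≤ n → (m.divisors.card : ℝ) ≤ Θ) →
      ∀ S : Finset (ℤ × ℤ × ℤ), (∀ p ∈ S, p.1 ^ 2 + p.2.1 ^ 2 + p.2.2 ^ 2 = (n : ℤ)) →
      (S.card : ℝ) ≤ (2 * Real.sqrt n + 1) * (8 * Θ ^ 2))
    (S : Finset (Tup × (V3 × V3))) (hS : ∀ x ∈ S, Ok Q T x)
    (ha : ∀ x ∈ S, 0 < fa Q x.1) (hd : ∀ x ∈ S, fa Q x.1 * fc Q x.1 - fb x.1 ^ 2 = 0) :
    (S.card : ℝ) ≤ 100000 * Th ^ 4 * ((T / Q) * (T / Q ^ 2) ^ 2) := by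
  classical
  have hQr : (1 : ℝ) ≤ Q := by exact_mod_cast hQ
  have hQ0 : (0 : ℝ) < Q := by linarith
  have hQz : (Q : ℤ) ≠ 0 := by exact_mod_cast (show Q ≠ 0 by omega)
  have hT0 : (0 : ℝ) < T := by linarith
  rcases S.eq_empty_or_nonempty with hE | ⟨x0, hx0⟩
  · rw [hE]; simp only [Finset.card_empty, Nat.cast_zero]; positivity
  have hX := half_le_of_fa_pos Q hQ T hT (hS x0 hx0).box (ha x0 hx0)
  set X := T / (Q : ℝ) ^ 2 with hXd
  set Y := T / (Q : ℝ) with hYd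
  have hX0 : 0 ≤ X := by positivity
  have hXY : X ≤ Y := by
    rw [hXd, hYd]
    apply div_le_div_of_nonneg_left hT0.le hQ0
    nlinarith
  have hXT : X ≤ T := div_le_self hT0.le (one_le_pow₀ hQr)
  -- fibres over the tuple
  have hf1 : ∀ θ ∈ S.image (fun x => x.1), ((S.filter (fun x => x.1 = θ)).card : ℝ) ≤
      48 * X * Th ^ 2 := by
    intro θ hθ
    obtain ⟨x1, hx1, hx1θ⟩ := Finset.mem_image.mp hθ
    have haθ : 0 < fa Q θ := by rw [← hx1θ]; exact ha x1 hx1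
    have hb : Box Q T θ := by rw [← hx1θ]; exact (hS x1 hx1).box
    have hdθ : fa Q θ * fc Q θ - fb θ ^ 2 = 0 := by rw [← hx1θ]; exact hd x1 hx1
    have hinj : ((S.filter (fun x => x.1 = θ)).image (fun x => x.2.1)).card =
        (S.filter (fun x => x.1 = θ)).card := by
      apply Finset.card_image_of_injOn
      intro x hx y hy hxy
      obtain ⟨hxS, e1⟩ := Finset.mem_filter.mp hx
      obtain ⟨hyS, e2⟩ := Finset.mem_filter.mp hy
      have key : ∀ z ∈ S, z.1 = θ → fa Q θ * z.2.2.1 = fb θ * z.2.1.1 ∧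
          fa Q θ * z.2.2.2.1 = fb θ * z.2.1.2.1 ∧ fa Q θ * z.2.2.2.2 = fb θ * z.2.1.2.2 := by
        intro z hz hzθ
        have o := hS z hz
        have ga := o.ga
        have gb := o.gb
        have gc := o.gc
        rw [hzθ] at ga gb gc
        simp only [dot] at ga gb gc
        have e : (fa Q θ * z.2.2.1 - fb θ * z.2.1.1) ^ 2 +
            (fa Q θ * z.2.2.2.1 - fb θ * z.2.1.2.1) ^ 2 +
            (fa Q θ * z.2.2.2.2 - fb θ * z.2.1.2.2) ^ 2 = 0 := by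
          calc _ = fa Q θ ^ 2 * (z.2.2.1 * z.2.2.1 + z.2.2.2.1 * z.2.2.2.1 + z.2.2.2.2 * z.2.2.2.2)
                - 2 * fa Q θ * fb θ * (z.2.1.1 * z.2.2.1 + z.2.1.2.1 * z.2.2.2.1 +
                  z.2.1.2.2 * z.2.2.2.2)
                + fb θ ^ 2 * (z.2.1.1 * z.2.1.1 + z.2.1.2.1 * z.2.1.2.1 + z.2.1.2.2 * z.2.1.2.2) := by
                ring
            _ = fa Q θ ^ 2 * fc Q θ - 2 * fa Q θ * fb θ * fb θ + fb θ ^ 2 * fa Q θ := by
                rw [ga, gb, gc]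
            _ = fa Q θ * (fa Q θ * fc Q θ - fb θ ^ 2) := by ring
            _ = 0 := by rw [hdθ, mul_zero]
        have s1 := sq_nonneg (fa Q θ * z.2.2.1 - fb θ * z.2.1.1)
        have s2 := sq_nonneg (fa Q θ * z.2.2.2.1 - fb θ * z.2.1.2.1)
        have s3 := sq_nonneg (fa Q θ * z.2.2.2.2 - fb θ * z.2.1.2.2)
        refine ⟨?_, ?_, ?_⟩
        · have : (fa Q θ * z.2.2.1 - fb θ * z.2.1.1) ^ 2 = 0 := by linarith
          have := pow_eq_zero_iff (two_ne_zero) |>.mp this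
          linarith
        · have : (fa Q θ * z.2.2.2.1 - fb θ * z.2.1.2.1) ^ 2 = 0 := by linarith
          have := pow_eq_zero_iff (two_ne_zero) |>.mp this
          linarith
        · have : (fa Q θ * z.2.2.2.2 - fb θ * z.2.1.2.2) ^ 2 = 0 := by linarith
          have := pow_eq_zero_iff (two_ne_zero) |>.mp this
          linarith
      obtain ⟨a1, a2, a3⟩ := key x hxS e1
      obtain ⟨b1, b2, b3⟩ := key y hyS e2
      simp only at hxy
      rw [hxy] at a1 a2 a3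
      have c1 := mul_left_cancel₀ haθ.ne' (a1.trans b1.symm)
      have c2 := mul_left_cancel₀ haθ.ne' (a2.trans b2.symm)
      have c3 := mul_left_cancel₀ haθ.ne' (a3.trans b3.symm)
      exact Prod.ext (e1.trans e2.symm) (Prod.ext hxy (Prod.ext c1 (Prod.ext c2 c3)))
    rw [← hinj]
    set n := (fa Q θ).toNat with hn
    have hnz : (n : ℤ) = fa Q θ := Int.toNat_of_nonneg haθ.le
    have hnr : (n : ℝ) = fa Q θ := by exact_mod_cast hnz
    have hnle : (n : ℝ) ≤ 4 * X ^ 2 := by rw [hnr]; exact hb.ba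
    have h := h3 n Th hTh1 (by
      intro m hm1 hmn
      apply hTh m (by omega)
      have h1 : (m : ℝ) ≤ n := by exact_mod_cast hmn
      have h4 : X ^ 2 ≤ T ^ 2 := by gcongr
      have h5 : T ^ 2 ≤ T ^ 8 := pow_le_pow_right₀ hT (by norm_num)
      have h6 : 0 ≤ T ^ 8 := by positivity
      linarith) ((S.filter (fun x => x.1 = θ)).image (fun x => x.2.1)) (by
      intro p hp
      obtain ⟨x, hx, rfl⟩ := Finset.mem_image.mp hp
      obtain ⟨hxS, e1⟩ := Finset.mem_filter.mp hx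
      have ga := (hS x hxS).ga
      rw [e1] at ga
      rw [hnz, ← ga]
      simp only [dot]; ring)
    refine h.trans ?_
    have hsq : Real.sqrt n ≤ 2 * X := by
      rw [Real.sqrt_le_left (by positivity)]
      calc (n : ℝ) ≤ 4 * X ^ 2 := hnle
        _ = (2 * X) ^ 2 := by ring
    calc (2 * Real.sqrt n + 1) * (8 * Th ^ 2) ≤ (6 * X) * (8 * Th ^ 2) := by
          apply mul_le_mul_of_nonneg_right _ (by positivity)
          linarith
      _ = 48 * X * Th ^ 2 := by ring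
  -- number of tuples
  have hf2 : ((S.image (fun x => x.1)).card : ℝ) ≤ 8 * Th ^ 2 * ((6 * X) * (12 * Y)) := by
    set F := S.image (fun x => x.1) with hF
    set g : Tup → ℤ × ℤ := fun θ => (θ.1, (Q : ℤ) ^ 2 * θ.2.2.2 - θ.2.2.1) with hg
    have hFok : ∀ θ ∈ F, Box Q T θ ∧ 1 < dn Q θ ∧ (dn Q θ : ℝ) ≤ T ^ 2 ∧
        fa Q θ * fc Q θ - fb θ ^ 2 = 0 := by
      intro θ hθ
      obtain ⟨x, hx, rfl⟩ := Finset.mem_image.mp hθ
      exact ⟨(hS x hx).box, (hS x hx).big, (hS x hx).dsz, hd x hx⟩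
    have hfib : ∀ ρ ∈ F.image g, (F.filter (fun θ => g θ = ρ)).card ≤ ⌊8 * Th ^ 2⌋₊ := by
      intro ρ hρ
      obtain ⟨θ1, hθ1, hθ1ρ⟩ := Finset.mem_image.mp hρ
      obtain ⟨hb1, hbig, hsz, -⟩ := hFok θ1 hθ1
      -- delta from rho
      set δ1 : ℤ := 1 + (Q : ℤ) ^ 2 * ρ.1 with hδ1
      set δ2 : ℤ := Q * ρ.2 with hδ2
      have hdn : ∀ θ : Tup, g θ = ρ → dn Q θ = δ1 ^ 2 + δ2 ^ 2 := by
        intro θ h
        rw [hδ1, hδ2, ← h]
        rfl
      have hNpos : 1 < δ1 ^ 2 + δ2 ^ 2 := by rw [← hdn θ1 hθ1ρ]; exact hbig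
      set n := ((δ1 ^ 2 + δ2 ^ 2 - 1) ^ 2).toNat with hn
      have hnz : (n : ℤ) = (δ1 ^ 2 + δ2 ^ 2 - 1) ^ 2 := Int.toNat_of_nonneg (sq_nonneg _)
      have hn0 : n ≠ 0 := by
        intro h0
        rw [h0] at hnz
        push_cast at hnz
        have : δ1 ^ 2 + δ2 ^ 2 - 1 = 0 := by
          have := hnz.symm
          exact pow_eq_zero_iff (two_ne_zero) |>.mp this
        omega
      have hnle : (n : ℝ) ≤ 1000 * T ^ 8 := by
        have e1 : (n : ℝ) = (((δ1 ^ 2 + δ2 ^ 2 : ℤ) : ℝ) - 1) ^ 2 := by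
          have : (n : ℝ) = (((δ1 ^ 2 + δ2 ^ 2 - 1) ^ 2 : ℤ) : ℝ) := by exact_mod_cast hnz
          rw [this]; push_cast; ring
        rw [hdn θ1 hθ1ρ] at hsz
        have e2 : (1 : ℝ) < ((δ1 ^ 2 + δ2 ^ 2 : ℤ) : ℝ) := by exact_mod_cast hNpos
        rw [e1]
        have e3 : (((δ1 ^ 2 + δ2 ^ 2 : ℤ) : ℝ) - 1) ^ 2 ≤ (T ^ 2) ^ 2 := by
          apply pow_le_pow_left₀ (by linarith)
          linarith
        have h5 : T ^ 4 ≤ T ^ 8 := pow_le_pow_right₀ hT (by norm_num)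
        have h6 : 0 ≤ T ^ 8 := by positivity
        nlinarith
      have hinj : ((F.filter (fun θ => g θ = ρ)).image (fun θ : Tup =>
          (((2 + (Q : ℤ) ^ 2 * θ.2.1) * ((Q : ℤ) ^ 2 * ρ.1) - (Q * θ.2.2.1) * δ2,
            (2 + (Q : ℤ) ^ 2 * θ.2.1) * δ2 + (Q * θ.2.2.1) * (2 + (Q : ℤ) ^ 2 * ρ.1)) :
              ℤ × ℤ))).card = (F.filter (fun θ => g θ = ρ)).card := by
        apply Finset.card_image_of_injOn
        intro θ hθ θ' hθ' he
        obtain ⟨hθF, e1⟩ := Finset.mem_filter.mp hθ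
        obtain ⟨hθ'F, e2⟩ := Finset.mem_filter.mp hθ'
        simp only [Prod.mk.injEq] at he
        obtain ⟨q1, q2⟩ := he
        have hne : δ1 ^ 2 + δ2 ^ 2 - 1 ≠ 0 := by omega
        have hδ1' : (Q : ℤ) ^ 2 * ρ.1 = δ1 - 1 := by rw [hδ1]; ring
        rw [hδ1'] at q1 q2
        have w1 : (δ1 ^ 2 + δ2 ^ 2 - 1) * ((Q : ℤ) ^ 2 * (θ.2.1 - θ'.2.1)) = 0 := by
          linear_combination (δ1 + 1) * q1 + δ2 * q2
        have w2 : (δ1 ^ 2 + δ2 ^ 2 - 1) * ((Q : ℤ) * (θ.2.2.1 - θ'.2.2.1)) = 0 := by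
          linear_combination (δ1 - 1) * q2 - δ2 * q1
        have v1 : θ.2.1 = θ'.2.1 := by
          have := (mul_eq_zero.mp w1).resolve_left hne
          have := (mul_eq_zero.mp this).resolve_left (pow_ne_zero 2 hQz)
          linarith
        have v2 : θ.2.2.1 = θ'.2.2.1 := by
          have := (mul_eq_zero.mp w2).resolve_left hne
          have := (mul_eq_zero.mp this).resolve_left hQz
          linarith
        have e12 := e1.trans e2.symm
        simp only [hg, Prod.mk.injEq] at e12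
        have v3 : θ.2.2.2 = θ'.2.2.2 := by
          have h5 : (Q : ℤ) ^ 2 * θ.2.2.2 = (Q : ℤ) ^ 2 * θ'.2.2.2 := by
            have := e12.2; rw [v2] at this; linarith
          exact mul_left_cancel₀ (pow_ne_zero 2 hQz) h5
        exact Prod.ext e12.1 (Prod.ext v1 (Prod.ext v2 v3))
      rw [← hinj]
      have hb2 := h2 n hn0 ((F.filter (fun θ => g θ = ρ)).image (fun θ : Tup =>
          (((2 + (Q : ℤ) ^ 2 * θ.2.1) * ((Q : ℤ) ^ 2 * ρ.1) - (Q * θ.2.2.1) * δ2,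
            (2 + (Q : ℤ) ^ 2 * θ.2.1) * δ2 + (Q * θ.2.2.1) * (2 + (Q : ℤ) ^ 2 * ρ.1)) :
              ℤ × ℤ))) (by
        intro p hp
        obtain ⟨θ, hθ, rfl⟩ := Finset.mem_image.mp hp
        obtain ⟨hθF, e1⟩ := Finset.mem_filter.mp hθ
        have hid := disc_identity Q θ
        rw [(hFok θ hθF).2.2.2, mul_zero, hdn θ e1] at hid
        rw [hnz]
        have e1' : θ.1 = ρ.1 := by rw [← e1]
        have e2' : (Q : ℤ) ^ 2 * θ.2.2.2 - θ.2.2.1 = ρ.2 := by rw [← e1]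
        rw [e1', e2', ← hδ2] at hid
        simp only
        linear_combination -hid)
      refine hb2.trans ?_
      apply Nat.le_floor
      push_cast
      have hτ := hTh n hn0 hnle
      have : ((n.divisors.card : ℝ)) ^ 2 ≤ Th ^ 2 := by gcongr
      linarith
    have hcm := Finset.card_le_mul_card_image (f := g) F _ hfib
    have himg : ((F.image g).card : ℝ) ≤ (6 * X) * (12 * Y) := by
      have hsub : F.image g ⊆ (F.image (fun θ : Tup => θ.1)) ×ˢ
          (F.image (fun θ : Tup => (Q : ℤ) ^ 2 * θ.2.2.2 - θ.2.2.1)) := by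
        intro q hq
        obtain ⟨θ, hθ, rfl⟩ := Finset.mem_image.mp hq
        rw [Finset.mem_product]
        exact ⟨Finset.mem_image_of_mem (fun θ : Tup => θ.1) hθ,
          Finset.mem_image_of_mem (fun θ : Tup => (Q : ℤ) ^ 2 * θ.2.2.2 - θ.2.2.1) hθ⟩
      have hc := Finset.card_le_card hsub
      rw [Finset.card_product] at hc
      have hA := card_box (F.image (fun θ : Tup => θ.1)) (2 * X) (by positivity) (by
        intro x hx
        obtain ⟨θ, hθ, rfl⟩ := Finset.mem_image.mp hx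
        exact (hFok θ hθ).1.b1)
      have hB := card_box (F.image (fun θ : Tup => (Q : ℤ) ^ 2 * θ.2.2.2 - θ.2.2.1)) (5 * Y)
        (by positivity) (by
        intro x hx
        obtain ⟨θ, hθ, rfl⟩ := Finset.mem_image.mp hx
        have b3 := (hFok θ hθ).1.b3
        have b4 := (hFok θ hθ).1.b4
        push_cast
        have e1 : |(Q : ℝ) ^ 2 * (θ.2.2.2 : ℝ)| ≤ 3 * Y := by
          rw [abs_mul, abs_of_nonneg (by positivity)]
          calc (Q : ℝ) ^ 2 * |(θ.2.2.2 : ℝ)| ≤ (Q : ℝ) ^ 2 * (3 * (T / Q ^ 3)) :=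
                mul_le_mul_of_nonneg_left b4 (by positivity)
            _ = 3 * Y := by rw [hYd]; field_simp
        have := abs_sub ((Q : ℝ) ^ 2 * (θ.2.2.2 : ℝ)) (θ.2.2.1 : ℝ)
        linarith)
      have hc2 : ((F.image g).card : ℝ) ≤ ((F.image (fun θ : Tup => θ.1)).card : ℝ) *
          ((F.image (fun θ : Tup => (Q : ℤ) ^ 2 * θ.2.2.2 - θ.2.2.1)).card : ℝ) := by
        exact_mod_cast hc
      refine hc2.trans ?_
      have hA' : ((F.image (fun θ : Tup => θ.1)).card : ℝ) ≤ 6 * X := by linarith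
      have hB' : ((F.image (fun θ : Tup => (Q : ℤ) ^ 2 * θ.2.2.2 - θ.2.2.1)).card : ℝ) ≤
          12 * Y := by linarith
      exact mul_le_mul hA' hB' (Nat.cast_nonneg _) (by positivity)
    have hfl : ((⌊8 * Th ^ 2⌋₊ : ℕ) : ℝ) ≤ 8 * Th ^ 2 := Nat.floor_le (by positivity)
    have hcm' : (F.card : ℝ) ≤ ((⌊8 * Th ^ 2⌋₊ : ℕ) : ℝ) * ((F.image g).card : ℝ) := by
      exact_mod_cast hcm
    refine hcm'.trans ?_
    exact mul_le_mul hfl himg (Nat.cast_nonneg _) (by positivity)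
  have hcard : (S.card : ℝ) = ∑ θ ∈ S.image (fun x => x.1),
      ((S.filter (fun x => x.1 = θ)).card : ℝ) := by
    rw [Finset.card_eq_sum_card_image (fun x => x.1) S]; push_cast; rfl
  rw [hcard]
  refine (Finset.sum_le_sum hf1).trans ?_
  rw [Finset.sum_const, nsmul_eq_mul]
  calc ((S.image (fun x => x.1)).card : ℝ) * (48 * X * Th ^ 2)
      ≤ (8 * Th ^ 2 * ((6 * X) * (12 * Y))) * (48 * X * Th ^ 2) :=
        mul_le_mul_of_nonneg_right hf2 (by positivity)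
    _ = 27648 * Th ^ 4 * (Y * X ^ 2) := by ring
    _ ≤ 100000 * Th ^ 4 * (Y * X ^ 2) := by
        have : 0 ≤ Th ^ 4 * (Y * X ^ 2) := by positivity
        linarith

include hQ hT in
/-- Case III: `fa = 0`. -/
lemma case_three (Th : ℝ) (hTh1 : 1 ≤ Th)
    (hTh : ∀ n : ℕ, n ≠ 0 → (n : ℝ) ≤ 1000 * T ^ 8 → (n.divisors.card : ℝ) ≤ Th)
    (h3 : ∀ (n : ℕ) (Θ : ℝ), 1 ≤ Θ → (∀ m : ℕ, 1 ≤ m → m ≤ n → (m.divisors.card : ℝ) ≤ Θ) →
      ∀ S : Finset (ℤ × ℤ × ℤ), (∀ p ∈ S, p.1 ^ 2 + p.2.1 ^ 2 + p.2.2 ^ 2 = (n : ℤ)) →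
      (S.card : ℝ) ≤ (2 * Real.sqrt n + 1) * (8 * Θ ^ 2))
    (S : Finset (Tup × (V3 × V3))) (hS : ∀ x ∈ S, Ok Q T x)
    (ha : ∀ x ∈ S, fa Q x.1 = 0) :
    (S.card : ℝ) ≤ 80 * Th ^ 2 * (4 * (T / Q) + 1) ^ 2 := by
  classical
  have hQr : (1 : ℝ) ≤ Q := by exact_mod_cast hQ
  have hQ0 : (0 : ℝ) < Q := by linarith
  have hQz : (Q : ℤ) ≠ 0 := by exact_mod_cast (show Q ≠ 0 by omega)
  have hT0 : (0 : ℝ) < T := by linarith
  set Y := T / (Q : ℝ) with hYd
  have hY0 : 0 ≤ Y := by positivity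
  have hYT : Y ≤ T := div_le_self hT0.le hQr
  have hP : ∀ x ∈ S, x.2.1 = 0 := by
    intro x hx
    apply dot_self_eq_zero
    rw [(hS x hx).ga, ha x hx]
  have hfb : ∀ x ∈ S, fb x.1 = 0 := by
    intro x hx
    rw [← (hS x hx).gb, hP x hx]
    simp [dot]
  have hf1 : ∀ θ ∈ S.image (fun x => x.1), ((S.filter (fun x => x.1 = θ)).card : ℝ) ≤
      (4 * Y + 1) * (8 * Th ^ 2) := by
    intro θ hθ
    obtain ⟨x1, hx1, hx1θ⟩ := Finset.mem_image.mp hθ
    have hb : Box Q T θ := by rw [← hx1θ]; exact (hS x1 hx1).box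
    have hc0 : 0 ≤ fc Q θ := by
      rw [← hx1θ, ← (hS x1 hx1).gc]; exact dot_self_nonneg _
    have hinj : ((S.filter (fun x => x.1 = θ)).image (fun x => x.2.2)).card =
        (S.filter (fun x => x.1 = θ)).card := by
      apply Finset.card_image_of_injOn
      intro x hx y hy hxy
      obtain ⟨hxS, e1⟩ := Finset.mem_filter.mp hx
      obtain ⟨hyS, e2⟩ := Finset.mem_filter.mp hy
      exact Prod.ext (e1.trans e2.symm) (Prod.ext ((hP x hxS).trans (hP y hyS).symm) hxy)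
    rw [← hinj]
    set n := (fc Q θ).toNat with hn
    have hnz : (n : ℤ) = fc Q θ := Int.toNat_of_nonneg hc0
    have hnr : (n : ℝ) = fc Q θ := by exact_mod_cast hnz
    have hnle : (n : ℝ) ≤ 4 * Y ^ 2 := by rw [hnr]; exact hb.bc
    have h := h3 n Th hTh1 (by
      intro m hm1 hmn
      apply hTh m (by omega)
      have h1 : (m : ℝ) ≤ n := by exact_mod_cast hmn
      have h4 : Y ^ 2 ≤ T ^ 2 := by gcongr
      have h5 : T ^ 2 ≤ T ^ 8 := pow_le_pow_right₀ hT (by norm_num)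
      have h6 : 0 ≤ T ^ 8 := by positivity
      linarith) ((S.filter (fun x => x.1 = θ)).image (fun x => x.2.2)) (by
      intro p hp
      obtain ⟨x, hx, rfl⟩ := Finset.mem_image.mp hp
      obtain ⟨hxS, e1⟩ := Finset.mem_filter.mp hx
      have gc := (hS x hxS).gc
      rw [e1] at gc
      rw [hnz, ← gc]
      simp only [dot]; ring)
    refine h.trans ?_
    apply mul_le_mul_of_nonneg_right _ (by positivity)
    have hsq : Real.sqrt n ≤ 2 * Y := by
      rw [Real.sqrt_le_left (by positivity)]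
      calc (n : ℝ) ≤ 4 * Y ^ 2 := hnle
        _ = (2 * Y) ^ 2 := by ring
    linarith
  have hf2 : ((S.image (fun x => x.1)).card : ℝ) ≤ 10 * (4 * Y + 1) := by
    set F := S.image (fun x => x.1) with hF
    have hFok : ∀ θ ∈ F, Box Q T θ ∧ 1 < dn Q θ ∧ fa Q θ = 0 ∧ fb θ = 0 := by
      intro θ hθ
      obtain ⟨x, hx, rfl⟩ := Finset.mem_image.mp hθ
      exact ⟨(hS x hx).box, (hS x hx).big, ha x hx, hfb x hx⟩
    have hQ2 : (1 : ℤ) ≤ (Q : ℤ) ^ 2 := by
      have : (1 : ℤ) ≤ Q := by exact_mod_cast hQ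
      nlinarith
    -- consequences
    have hkey : ∀ θ ∈ F, 4 * θ.1 ^ 2 + (Q : ℤ) ^ 2 * (θ.2.1 * θ.2.2.1) ^ 2 +
        4 * θ.2.1 * θ.2.2.1 ^ 2 = 0 ∧ 2 * θ.2.2.2 = -(θ.2.1 * θ.2.2.1) ∧ θ.2.2.1 ≠ 0 := by
      intro θ hθ
      obtain ⟨-, hbig, hA, hB⟩ := hFok θ hθ
      simp only [fa] at hA
      simp only [fb] at hB
      have e1 : 4 * θ.1 ^ 2 + (Q : ℤ) ^ 2 * (θ.2.1 * θ.2.2.1) ^ 2 +
        4 * θ.2.1 * θ.2.2.1 ^ 2 = 0 := by
        linear_combination 4 * hA + (-(2 * (Q : ℤ) ^ 2 * θ.2.2.2) + (Q : ℤ) ^ 2 * (θ.2.1 * θ.2.2.1)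
          + 4 * θ.2.2.1) * hB
      have e2 : 2 * θ.2.2.2 = -(θ.2.1 * θ.2.2.1) := by linarith
      refine ⟨e1, e2, ?_⟩
      intro h0
      rw [h0] at e1 e2
      have d0 : θ.1 = 0 := by
        have : θ.1 ^ 2 = 0 := by linarith
        exact pow_eq_zero_iff (two_ne_zero) |>.mp this
      have s0 : θ.2.2.2 = 0 := by linarith
      simp only [dn, d0, s0, h0] at hbig
      norm_num at hbig
    have hfib : ∀ ρ ∈ F.image (fun θ : Tup => θ.2.2.1),
        (F.filter (fun θ : Tup => θ.2.2.1 = ρ)).card ≤ 10 := by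
      intro ρ _
      have h10 : ((Finset.Icc (-4 : ℤ) 0) ×ˢ (Finset.univ : Finset Bool)).card = 10 := by
        rw [Finset.card_product]; rfl
      rw [← h10]
      refine Finset.card_le_card_of_injOn (fun θ => (θ.2.1, decide (0 ≤ θ.1))) ?_ ?_
      · intro θ hθ
        obtain ⟨hθF, e1⟩ := Finset.mem_filter.mp hθ
        obtain ⟨k1, k2, k3⟩ := hkey θ hθF
        simp only [Finset.coe_product, Set.mem_prod, Finset.mem_coe, Finset.mem_Icc,
          Finset.mem_univ, and_true]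
        have hpos : 0 < θ.2.2.1 ^ 2 := by positivity
        have h4 : θ.2.2.1 ^ 2 * (θ.2.1 * ((Q : ℤ) ^ 2 * θ.2.1 + 4)) ≤ 0 := by
          nlinarith [sq_nonneg θ.1]
        have h5 : θ.2.1 * ((Q : ℤ) ^ 2 * θ.2.1 + 4) ≤ 0 := by
          by_contra hc
          push Not at hc
          have := mul_pos hpos hc
          linarith
        constructor
        · by_contra hc
          push Not at hc
          have h6 : (Q : ℤ) ^ 2 * θ.2.1 + 4 < 0 := by nlinarith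
          nlinarith
        · by_contra hc
          push Not at hc
          have h6 : 0 < (Q : ℤ) ^ 2 * θ.2.1 + 4 := by nlinarith
          nlinarith
      · intro θ hθ θ' hθ' he
        obtain ⟨hθF, e1⟩ := Finset.mem_filter.mp hθ
        obtain ⟨hθ'F, e2⟩ := Finset.mem_filter.mp hθ'
        obtain ⟨k1, k2, -⟩ := hkey θ hθF
        obtain ⟨k1', k2', -⟩ := hkey θ' hθ'F
        simp only [Prod.mk.injEq, decide_eq_decide] at he
        obtain ⟨f1, f2⟩ := he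
        have f3 : θ.2.2.1 = θ'.2.2.1 := e1.trans e2.symm
        rw [f1, f3] at k1 k2
        have f4 : θ.2.2.2 = θ'.2.2.2 := by linarith
        have hsq : θ.1 ^ 2 = θ'.1 ^ 2 := by linarith
        have f5 : θ.1 = θ'.1 := by
          rcases sq_eq_sq_iff_eq_or_eq_neg.mp hsq with h | h
          · exact h
          · rcases le_or_gt 0 θ.1 with h4 | h4
            · have := f2.mp h4; omega
            · have : ¬ (0 ≤ θ'.1) := fun h5 => by have := f2.mpr h5; omega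
              omega
        exact Prod.ext f5 (Prod.ext f1 (Prod.ext f3 f4))
    have hcm := Finset.card_le_mul_card_image (f := fun θ : Tup => θ.2.2.1) F _ hfib
    have hB := card_box (F.image (fun θ : Tup => θ.2.2.1)) (2 * Y) (by positivity) (by
      intro x hx
      obtain ⟨θ, hθ, rfl⟩ := Finset.mem_image.mp hx
      exact (hFok θ hθ).1.b3)
    have hcm' : (F.card : ℝ) ≤ 10 * ((F.image (fun θ : Tup => θ.2.2.1)).card : ℝ) := by
      exact_mod_cast hcm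
    linarith
  have hcard : (S.card : ℝ) = ∑ θ ∈ S.image (fun x => x.1),
      ((S.filter (fun x => x.1 = θ)).card : ℝ) := by
    rw [Finset.card_eq_sum_card_image (fun x => x.1) S]; push_cast; rfl
  rw [hcard]
  refine (Finset.sum_le_sum hf1).trans ?_
  rw [Finset.sum_const, nsmul_eq_mul]
  calc ((S.image (fun x => x.1)).card : ℝ) * ((4 * Y + 1) * (8 * Th ^ 2))
      ≤ (10 * (4 * Y + 1)) * ((4 * Y + 1) * (8 * Th ^ 2)) :=
        mul_le_mul_of_nonneg_right hf2 (by positivity)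
    _ = 80 * Th ^ 2 * (4 * Y + 1) ^ 2 := by ring

end

end Pool.Agent.SU21
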