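import Mathlib

/-!
# SU21, module Defs: the group SU(2,1) over the Gaussian integers (helper41)
-/

set_option autoImplicit false

namespace Pool.Agent.SU21

open Matrix

/-- The Hermitian form `diag(1, 1, -1)` over the Gaussian integers. -/
def J : Matrix (Fin 3) (Fin 3) GaussianInt := Matrix.diagonal ![1, 1, -1]

/-- `g` is an element of `SU(2,1)` with Gaussian integer entries:
`g^* J g = J` and `det g = 1`. -/
def IsSU (g : Matrix (Fin 3) (Fin 3) GaussianInt) : Prop :=
  gᴴ * J * g = J ∧ g.det = 1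

/-- `g` is congruent to the identity matrix modulo `q`. -/
def CongOne (q : ℕ) (g : Matrix (Fin 3) (Fin 3) GaussianInt) : Prop :=
  ∀ i j, (q : GaussianInt) ∣ (g - 1) i j

/-- The square of the Euclidean norm of `g`: the sum of `|g_ij|^2`. -/
def nsq (g : Matrix (Fin 3) (Fin 3) GaussianInt) : ℤ := ∑ i, ∑ j, Zsqrtd.norm (g i j)

/-- Integer vectors with three coordinates. -/
abbrev V3 : Type := ℤ × ℤ × ℤ

/-- Scalar product. -/
def dot (u v : V3) : ℤ := u.1 * v.1 + u.2.1 * v.2.1 + u.2.2 * v.2.2

end Pool.Agent.SU21
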