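import Pool.Agent.SU21.Defs

/-!
# SU21, module Glue: primitive pairs of integer vectors with given Gram matrix (helper41)
-/

set_option autoImplicit false

namespace Pool.Agent.SU21

open Matrix

/-- Cross product. -/
def cross (u v : V3) : V3 :=
  (u.2.1 * v.2.2 - u.2.2 * v.2.1, u.2.2 * v.1 - u.1 * v.2.2, u.1 * v.2.1 - u.2.1 * v.1)

/-- Determinant of three vectors. -/
def det3 (u v w : V3) : ℤ := dot (cross u v) w

/-- The matrix with columns `P, R, z`. -/
def cols (P R z : V3) : Matrix (Fin 3) (Fin 3) ℤ :=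
  !![P.1, R.1, z.1; P.2.1, R.2.1, z.2.1; P.2.2, R.2.2, z.2.2]

lemma det_cols (P R z : V3) : (cols P R z).det = det3 P R z := by
  simp [cols, Matrix.det_fin_three, det3, dot, cross]
  ring

lemma gram_cols (P R z : V3) : (cols P R z)ᵀ * cols P R z =
    !![dot P P, dot P R, dot z P; dot P R, dot R R, dot z R; dot z P, dot z R, dot z z] := by
  ext i j
  fin_cases i <;> fin_cases j <;>
    simp [cols, Matrix.mul_apply, Fin.sum_univ_three, dot, Matrix.transpose_apply] <;> ring

lemma cols_inj {P R z P' R' z' : V3} (h : cols P R z = cols P' R' z') : P = P' ∧ R = R' := by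
  have h00 := congrFun (congrFun h 0) 0
  have h10 := congrFun (congrFun h 1) 0
  have h20 := congrFun (congrFun h 2) 0
  have h01 := congrFun (congrFun h 0) 1
  have h11 := congrFun (congrFun h 1) 1
  have h21 := congrFun (congrFun h 2) 1
  simp [cols] at h00 h10 h20 h01 h11 h21
  exact ⟨Prod.ext h00 (Prod.ext h10 h20), Prod.ext h01 (Prod.ext h11 h21)⟩

/-- The Gram determinant. -/
lemma gram_det (P R z : V3) : dot z z * (dot P P * dot R R - dot P R ^ 2) =
    det3 P R z ^ 2 + (dot R R * (dot z P) ^ 2 - 2 * dot P R * dot z P * dot z R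
      + dot P P * (dot z R) ^ 2) := by
  simp only [dot, det3, cross]
  ring

/-- The adjoint bilinear form. -/
def Bf (a b c p r p' r' : ℤ) : ℤ := c * p * p' - b * (p * r' + r * p') + a * r * r'

lemma orth_entry (O : Matrix (Fin 3) (Fin 3) ℤ) (hO : Oᵀ * O = 1) (i j : Fin 3) :
    -1 ≤ O i j ∧ O i j ≤ 1 := by
  have h := congrFun (congrFun hO j) j
  simp [Matrix.mul_apply, Fin.sum_univ_three, Matrix.transpose_apply] at h
  have h0 := mul_self_nonneg (O 0 j)
  have h1 := mul_self_nonneg (O 1 j)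
  have h2 := mul_self_nonneg (O 2 j)
  have hij : ∀ i : Fin 3, O i j * O i j ≤ 1 := by
    intro i
    match i with
    | 0 => linarith
    | 1 => linarith
    | 2 => linarith
  have h3 := hij i
  constructor <;> nlinarith

lemma card_orth : (Fintype.piFinset (fun _ : Fin 3 =>
    Fintype.piFinset (fun _ : Fin 3 => Finset.Icc (-1 : ℤ) 1))).card = 3 ^ 9 := by
  simp [Fintype.card_piFinset]

/-- Two bases with the same Gram matrix differ by an orthogonal integer matrix. -/
lemma orth_of_gram {A A' : Matrix (Fin 3) (Fin 3) ℤ} (hA : A.det = 1)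
    (h : A'ᵀ * A' = Aᵀ * A) :
    (A' * A.adjugate)ᵀ * (A' * A.adjugate) = 1 ∧ (A' * A.adjugate) * A = A' := by
  have h1 : A * A.adjugate = 1 := by rw [Matrix.mul_adjugate, hA, one_smul]
  have h2 : A.adjugate * A = 1 := by rw [Matrix.adjugate_mul, hA, one_smul]
  constructor
  · rw [Matrix.transpose_mul]
    calc A.adjugateᵀ * A'ᵀ * (A' * A.adjugate)
        = A.adjugateᵀ * (A'ᵀ * A') * A.adjugate := by simp only [Matrix.mul_assoc]
      _ = A.adjugateᵀ * (Aᵀ * A) * A.adjugate := by rw [h]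
      _ = (A * A.adjugate)ᵀ * (A * A.adjugate) := by
          rw [Matrix.transpose_mul]; simp only [Matrix.mul_assoc]
      _ = 1 := by rw [h1]; simp
  · rw [Matrix.mul_assoc, h2, Matrix.mul_one]

/-- The gluing step: equality of the invariants modulo `D` lets one adjust `z'`. -/
lemma glue_adjust {a b c D : ℤ} (hD : D = a * c - b ^ 2) (hD0 : D ≠ 0)
    {p0 r0 e0 : ℤ} (h0 : Bf a b c p0 r0 p0 r0 = e0 * D - 1)
    {P R z P' R' z' : V3}
    (ha : dot P P = a) (hb : dot P R = b) (hc : dot R R = c) (hz : det3 P R z = 1)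
    (ha' : dot P' P' = a) (hb' : dot P' R' = b) (hc' : dot R' R' = c) (hz' : det3 P' R' z' = 1)
    (hB : D ∣ Bf a b c (dot z P) (dot z R) p0 r0 - Bf a b c (dot z' P') (dot z' R') p0 r0) :
    ∃ z'' : V3, det3 P' R' z'' = 1 ∧ (cols P' R' z'')ᵀ * cols P' R' z'' =
      (cols P R z)ᵀ * cols P R z := by
  set y1 := dot z P - dot z' P' with hy1
  set y2 := dot z R - dot z' R' with hy2
  obtain ⟨m, hm⟩ := hB
  have hm' : (c * y1 - b * y2) * p0 + (-b * y1 + a * y2) * r0 = D * m := by
    rw [← hm]; simp only [Bf, hy1, hy2]; ring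
  set v1 := (c * y1 - b * y2) * e0 - (c * p0 - b * r0) * m - (y1 * r0 - y2 * p0) * r0 with hv1
  set v2 := (-b * y1 + a * y2) * e0 - (a * r0 - b * p0) * m + (y1 * r0 - y2 * p0) * p0 with hv2
  have hY1 : c * y1 - b * y2 = D * v1 := by
    have e1 : (c * y1 - b * y2) * Bf a b c p0 r0 p0 r0 =
        (c * p0 - b * r0) * (D * m) + D * (y1 * r0 - y2 * p0) * r0 := by
      rw [← hm', hD]; simp only [Bf]; ring
    rw [h0] at e1
    rw [hv1]; linear_combination -e1
  have hY2 : -b * y1 + a * y2 = D * v2 := by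
    have e1 : (-b * y1 + a * y2) * Bf a b c p0 r0 p0 r0 =
        (a * r0 - b * p0) * (D * m) - D * (y1 * r0 - y2 * p0) * p0 := by
      rw [← hm', hD]; simp only [Bf]; ring
    rw [h0] at e1
    rw [hv2]; linear_combination -e1
  have hG1 : a * v1 + b * v2 = y1 := by
    have : D * (a * v1 + b * v2) = D * y1 := by
      calc D * (a * v1 + b * v2) = a * (D * v1) + b * (D * v2) := by ring
        _ = D * y1 := by rw [← hY1, ← hY2, hD]; ring
    exact mul_left_cancel₀ hD0 this
  have hG2 : b * v1 + c * v2 = y2 := by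
    have : D * (b * v1 + c * v2) = D * y2 := by
      calc D * (b * v1 + c * v2) = b * (D * v1) + c * (D * v2) := by ring
        _ = D * y2 := by rw [← hY1, ← hY2, hD]; ring
    exact mul_left_cancel₀ hD0 this
  refine ⟨(z'.1 + v1 * P'.1 + v2 * R'.1, z'.2.1 + v1 * P'.2.1 + v2 * R'.2.1,
    z'.2.2 + v1 * P'.2.2 + v2 * R'.2.2), ?_, ?_⟩
  · rw [← hz']; simp only [det3, dot, cross]; ring
  · set z'' : V3 := (z'.1 + v1 * P'.1 + v2 * R'.1, z'.2.1 + v1 * P'.2.1 + v2 * R'.2.1,
      z'.2.2 + v1 * P'.2.2 + v2 * R'.2.2) with hz''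
    have e1 : dot z'' P' = dot z P := by
      have : dot z'' P' = dot z' P' + v1 * dot P' P' + v2 * dot P' R' := by
        simp only [hz'', dot]; ring
      rw [this, ha', hb']; linarith [hG1, hy1]
    have e2 : dot z'' R' = dot z R := by
      have : dot z'' R' = dot z' R' + v1 * dot P' R' + v2 * dot R' R' := by
        simp only [hz'', dot]; ring
      rw [this, hb', hc']; linarith [hG2, hy2]
    have hdet : det3 P' R' z'' = 1 := by
      rw [← hz']; simp only [hz'', det3, dot, cross]; ring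
    have e3 : dot z'' z'' = dot z z := by
      have g1 := gram_det P R z
      have g2 := gram_det P' R' z''
      rw [ha, hb, hc, hz, ← hD] at g1
      rw [ha', hb', hc', hdet, ← hD, e1, e2] at g2
      exact mul_right_cancel₀ hD0 (g2.trans g1.symm)
    rw [gram_cols, gram_cols, ha, hb, hc, ha', hb', hc', e1, e2, e3]

/-- Primitive pairs with given Gram matrix `(a, b; b, c)` of determinant `D`: the number of
them is at most `3^9` times the number of square roots of one modulo `D`. -/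
lemma prim_pairs (a b c : ℤ) (D : ℕ) (hD : (D : ℤ) = a * c - b ^ 2) (hD0 : D ≠ 0) (K : ℕ)
    (hK : ∀ S : Finset (ZMod D), (∀ t ∈ S, t ^ 2 = 1) → S.card ≤ K)
    (S : Finset (V3 × V3))
    (hS : ∀ p ∈ S, dot p.1 p.1 = a ∧ dot p.1 p.2 = b ∧ dot p.2 p.2 = c ∧
      ∃ z, det3 p.1 p.2 z = 1) : S.card ≤ 3 ^ 9 * K := by
  classical
  have hDz : (D : ℤ) ≠ 0 := by exact_mod_cast hD0
  set zf : V3 × V3 → V3 := fun p => if h : ∃ z, det3 p.1 p.2 z = 1 then h.choose else 0 with hzf
  have hzs : ∀ p ∈ S, det3 p.1 p.2 (zf p) = 1 := by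
    intro p hp
    have h := (hS p hp).2.2.2
    simp only [hzf, dif_pos h]
    exact h.choose_spec
  rcases S.eq_empty_or_nonempty with hE | ⟨q0, hq0⟩
  · simp [hE]
  set p0 := dot (zf q0) q0.1 with hp0
  set r0 := dot (zf q0) q0.2 with hr0
  have hBB : ∀ p ∈ S, Bf a b c (dot (zf p) p.1) (dot (zf p) p.2) (dot (zf p) p.1)
      (dot (zf p) p.2) = dot (zf p) (zf p) * D - 1 := by
    intro p hp
    obtain ⟨ha, hb, hc, -⟩ := hS p hp
    have g1 := gram_det p.1 p.2 (zf p)
    rw [ha, hb, hc, hzs p hp, ← hD] at g1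
    rw [g1]; simp only [Bf]; ring
  have h0 : Bf a b c p0 r0 p0 r0 = dot (zf q0) (zf q0) * D - 1 := hBB q0 hq0
  set f : V3 × V3 → ZMod D :=
    fun p => ((Bf a b c (dot (zf p) p.1) (dot (zf p) p.2) p0 r0 : ℤ) : ZMod D) with hf
  have hcast : ((D : ℤ) : ZMod D) = 0 := by
    rw [Int.cast_natCast]; exact ZMod.natCast_self D
  have himg : (S.image f).card ≤ K := by
    apply hK
    intro t ht
    obtain ⟨p, hp, rfl⟩ := Finset.mem_image.mp ht
    have e1 : (Bf a b c (dot (zf p) p.1) (dot (zf p) p.2) p0 r0) ^ 2 =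
        (dot (zf p) (zf p) * D - 1) * (dot (zf q0) (zf q0) * D - 1)
          - D * (dot (zf p) p.1 * r0 - dot (zf p) p.2 * p0) ^ 2 := by
      rw [← hBB p hp, ← h0, hD]; simp only [Bf]; ring
    have e2 := congrArg (fun x : ℤ => (x : ZMod D)) e1
    simp only [hf]
    push_cast at e2 ⊢
    rw [e2]
    have hc2 : (D : ZMod D) = 0 := ZMod.natCast_self D
    rw [hc2]; ring
  refine (Finset.card_le_mul_card_image S (3 ^ 9) ?_).trans (Nat.mul_le_mul_left _ himg)
  intro t ht
  obtain ⟨p, hp, hpt⟩ := Finset.mem_image.mp ht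
  obtain ⟨ha, hb, hc, -⟩ := hS p hp
  have hex : ∀ p' : V3 × V3, p' ∈ S.filter (fun x => f x = t) → ∃ z'' : V3,
      (cols p'.1 p'.2 z'')ᵀ * cols p'.1 p'.2 z'' =
      (cols p.1 p.2 (zf p))ᵀ * cols p.1 p.2 (zf p) := by
    intro p' hp'
    rw [Finset.mem_filter] at hp'
    obtain ⟨hp'S, hp't⟩ := hp'
    obtain ⟨ha', hb', hc', -⟩ := hS p' hp'S
    have hfe : f p = f p' := by rw [hpt, hp't]
    have hdvd : (D : ℤ) ∣ Bf a b c (dot (zf p) p.1) (dot (zf p) p.2) p0 r0
        - Bf a b c (dot (zf p') p'.1) (dot (zf p') p'.2) p0 r0 := by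
      rw [← ZMod.intCast_zmod_eq_zero_iff_dvd]
      push_cast
      rw [sub_eq_zero]
      exact_mod_cast hfe
    obtain ⟨z'', -, h⟩ := glue_adjust hD hDz h0 ha hb hc (hzs p hp) ha' hb' hc' (hzs p' hp'S) hdvd
    exact ⟨z'', h⟩
  set wf : V3 × V3 → V3 := fun p' => if h : ∃ z'' : V3,
      (cols p'.1 p'.2 z'')ᵀ * cols p'.1 p'.2 z'' =
      (cols p.1 p.2 (zf p))ᵀ * cols p.1 p.2 (zf p) then h.choose else 0 with hwf
  have hws : ∀ p' ∈ S.filter (fun x => f x = t),
      (cols p'.1 p'.2 (wf p'))ᵀ * cols p'.1 p'.2 (wf p') =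
      (cols p.1 p.2 (zf p))ᵀ * cols p.1 p.2 (zf p) := by
    intro p' hp'
    have h := hex p' hp'
    simp only [hwf, dif_pos h]
    exact h.choose_spec
  have hdet : (cols p.1 p.2 (zf p)).det = 1 := by rw [det_cols]; exact hzs p hp
  rw [← card_orth]
  refine Finset.card_le_card_of_injOn
    (fun p' => (cols p'.1 p'.2 (wf p') * (cols p.1 p.2 (zf p)).adjugate : Matrix (Fin 3) (Fin 3) ℤ))
    ?_ ?_
  · intro p' hp'
    have h := orth_of_gram hdet (hws p' hp')
    simp only [Finset.mem_coe, Fintype.mem_piFinset, Finset.mem_Icc]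
    intro i j
    exact orth_entry _ h.1 i j
  · intro p1 hp1 p2 hp2 he
    have h1 := (orth_of_gram hdet (hws p1 hp1)).2
    have h2 := (orth_of_gram hdet (hws p2 hp2)).2
    simp only at he
    have : cols p1.1 p1.2 (wf p1) = cols p2.1 p2.2 (wf p2) := by
      rw [← h1, ← h2, he]
    obtain ⟨e1, e2⟩ := cols_inj this
    exact Prod.ext e1 e2

end Pool.Agent.SU21
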