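import Pool.Agent.SU21.Glue

/-!
# SU21, module Rep: pairs of integer vectors with given Gram matrix (helper41)
-/

set_option autoImplicit false

namespace Pool.Agent.SU21

open Matrix

/-- A finite set of integers, congruent modulo `m`, in a window shorter than `m n`. -/
lemma card_window (A : Finset ℤ) (m n : ℕ) (hm : 0 < m)
    (h1 : ∀ x ∈ A, ∀ y ∈ A, (m : ℤ) ∣ x - y) (h2 : ∀ x ∈ A, ∀ y ∈ A, x - y < m * n) :
    A.card ≤ n := by
  classical
  rcases A.eq_empty_or_nonempty with hE | hne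
  · simp [hE]
  set x0 := A.min' hne with hx0
  have hx0A : x0 ∈ A := A.min'_mem hne
  have hmz : (0 : ℤ) < m := by exact_mod_cast hm
  have : A.card ≤ (Finset.range n).card := by
    refine Finset.card_le_card_of_injOn (fun x => ((x - x0) / m).toNat) ?_ ?_
    · intro x hx
      have hx' : x ∈ A := hx
      have hge : x0 ≤ x := A.min'_le x hx'
      have hlt := h2 x hx' x0 hx0A
      have hd : (x - x0) / m < n := Int.ediv_lt_of_lt_mul hmz (by linarith)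
      have hnn : 0 ≤ (x - x0) / m := Int.ediv_nonneg (by linarith) hmz.le
      simp only [Finset.coe_range, Set.mem_Iio]
      omega
    · intro x hx y hy hxy
      have hx' : x ∈ A := hx
      have hy' : y ∈ A := hy
      have hgx : x0 ≤ x := A.min'_le x hx'
      have hgy : x0 ≤ y := A.min'_le y hy'
      have hnx : 0 ≤ (x - x0) / m := Int.ediv_nonneg (by linarith) hmz.le
      have hny : 0 ≤ (y - x0) / m := Int.ediv_nonneg (by linarith) hmz.le
      simp only at hxy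
      have he : (x - x0) / m = (y - x0) / m := by omega
      have ex := Int.ediv_mul_cancel (h1 x hx' x0 hx0A)
      have ey := Int.ediv_mul_cancel (h1 y hy' x0 hx0A)
      rw [he] at ex
      linarith
  simpa using this

/-- The number of overlattice classes of index `k`. -/
lemma count_x (a1 b1 c : ℤ) (k : ℕ) (hk : 1 ≤ k) (L : ℕ)
    (hL : ∀ l : ℕ, (l : ℤ) ^ 2 ∣ a1 → (l : ℤ) ^ 2 ∣ 2 * b1 → (l : ℤ) ^ 2 ∣ c → l ≤ L)
    (X : Finset ℤ) (hX : ∀ x ∈ X, 0 ≤ x ∧ x < k ∧ (k : ℤ) ∣ x * a1 - b1 ∧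
      (k : ℤ) ^ 2 ∣ x ^ 2 * a1 - 2 * x * b1 + c) : X.card ≤ k.divisors.card * L := by
  classical
  rcases X.eq_empty_or_nonempty with hE | ⟨x0, hx0⟩
  · simp [hE]
  obtain ⟨h0a, h0b, ⟨α, hα⟩, ⟨γ, hγ⟩⟩ := hX x0 hx0
  have hk0 : (k : ℤ) ≠ 0 := by exact_mod_cast (show k ≠ 0 by omega)
  set f : ℕ := Int.gcd a1 k with hf
  have hfpos : 0 < f := Int.gcd_pos_of_ne_zero_right _ hk0
  have hfz : (f : ℤ) ≠ 0 := by exact_mod_cast hfpos.ne'
  obtain ⟨a', ha'⟩ : (f : ℤ) ∣ a1 := Int.gcd_dvd_left _ _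
  obtain ⟨k'z, hk'z⟩ : (f : ℤ) ∣ (k : ℤ) := Int.gcd_dvd_right _ _
  have hfk : f ∣ k := by exact_mod_cast (Dvd.intro _ hk'z.symm : (f : ℤ) ∣ (k : ℤ))
  obtain ⟨k', hk'⟩ := hfk
  have hk'pos : 0 < k' := by
    rcases Nat.eq_zero_or_pos k' with h | h
    · rw [h, mul_zero] at hk'; omega
    · exact h
  have hkz : (k : ℤ) = f * k' := by exact_mod_cast hk'
  have hk'z0 : (k' : ℤ) ≠ 0 := by exact_mod_cast hk'pos.ne'
  have hcop : IsCoprime a' (k' : ℤ) := by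
    have h := Int.gcd_div_gcd_div_gcd (i := a1) (j := (k : ℤ)) hfpos
    rw [← hf] at h
    have e1 : a1 / (f : ℤ) = a' := by rw [ha']; exact Int.mul_ediv_cancel_left _ hfz
    have e2 : (k : ℤ) / (f : ℤ) = k' := by rw [hkz]; exact Int.mul_ediv_cancel_left _ hfz
    rw [e1, e2] at h
    exact Int.isCoprime_iff_gcd_eq_one.mpr h
  -- the quotient
  have hdiv : ∀ x ∈ X, (k' : ℤ) ∣ x - x0 := by
    intro x hx
    obtain ⟨-, -, ⟨β, hβ⟩, -⟩ := hX x hx
    have h1 : (f : ℤ) * (k' * (β - α)) = f * ((x - x0) * a') := by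
      have : (x - x0) * a1 = k * (β - α) := by linear_combination hβ - hα
      rw [ha', hkz] at this; linear_combination -this
    have h2 := mul_left_cancel₀ hfz h1
    have h3 : (k' : ℤ) ∣ (x - x0) * a' := Dvd.intro _ h2
    exact hcop.symm.dvd_of_dvd_mul_right h3
  set yf : ℤ → ℤ := fun x => (x - x0) / k' with hyf
  have hy : ∀ x ∈ X, x - x0 = k' * yf x := by
    intro x hx
    simp only [hyf]
    rw [mul_comm]; exact (Int.ediv_mul_cancel (hdiv x hx)).symm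
  have hprod : ∀ x ∈ X, (f : ℤ) ∣ yf x * (2 * α + a' * yf x) := by
    intro x hx
    obtain ⟨-, -, -, ⟨δ, hδ⟩⟩ := hX x hx
    have e := hy x hx
    have h1 : ((k : ℤ) * k') * (yf x * (2 * α + a' * yf x)) = (k * k') * (f * (δ - γ)) := by
      have e1 : (x - x0) * ((x + x0) * a1 - 2 * b1) = k ^ 2 * (δ - γ) := by
        linear_combination hδ - hγ
      have e2 : (x + x0) * a1 - 2 * b1 = 2 * (k * α) + (x - x0) * a1 := by
        rw [← hα]; ring
      rw [e2, e, ha'] at e1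
      have e3 : (k : ℤ) ^ 2 = k * (f * k') := by rw [← hkz]; ring
      calc ((k : ℤ) * k') * (yf x * (2 * α + a' * yf x))
          = k' * yf x * (2 * (k * α) + k' * yf x * (f * a')) := by
            have : (k : ℤ) * a' = f * k' * a' := by rw [hkz]
            linear_combination (k' * yf x * yf x) * this
        _ = k ^ 2 * (δ - γ) := e1
        _ = (k * k') * (f * (δ - γ)) := by rw [e3]; ring
    exact ⟨δ - γ, mul_left_cancel₀ (mul_ne_zero hk0 hk'z0) h1⟩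
  -- the first invariant
  set G : ℤ → ℕ := fun x => Int.gcd (yf x) f with hG
  have hdk : ∀ x ∈ X, G x ∈ k.divisors := by
    intro x _
    rw [Nat.mem_divisors]
    refine ⟨?_, by omega⟩
    have h1 : ((G x : ℕ) : ℤ) ∣ (f : ℤ) := Int.gcd_dvd_right _ _
    have h2 : G x ∣ f := by exact_mod_cast h1
    rw [hk']; exact h2.trans (dvd_mul_right _ _)
  have hfib : ∀ g1 ∈ X.image G, (X.filter (fun x => G x = g1)).card ≤ L := by
    intro g1 hg1
    obtain ⟨xr, hxr, hxrg⟩ := Finset.mem_image.mp hg1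
    have hg1f : g1 ∣ f := by
      have h1 : ((G xr : ℕ) : ℤ) ∣ (f : ℤ) := Int.gcd_dvd_right _ _
      rw [hxrg] at h1; exact_mod_cast h1
    obtain ⟨h, hh⟩ := hg1f
    have hg1pos : 0 < g1 := Nat.pos_of_ne_zero (by rintro rfl; simp at hh; omega)
    have hhpos : 0 < h := Nat.pos_of_ne_zero (by rintro rfl; simp at hh; omega)
    have hg1z : (g1 : ℤ) ≠ 0 := by exact_mod_cast hg1pos.ne'
    have hfgh : (f : ℤ) = g1 * h := by exact_mod_cast hh
    set l : ℕ := Int.gcd (a' * g1) h with hl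
    have hhz : (h : ℤ) ≠ 0 := by exact_mod_cast hhpos.ne'
    have hlpos : 0 < l := Int.gcd_pos_of_ne_zero_right _ hhz
    have hlz : (l : ℤ) ≠ 0 := by exact_mod_cast hlpos.ne'
    have hla : (l : ℤ) ∣ a' * g1 := Int.gcd_dvd_left _ _
    have hlh : (l : ℤ) ∣ (h : ℤ) := Int.gcd_dvd_right _ _
    -- the elements of the fibre
    have hel : ∀ x ∈ X.filter (fun x => G x = g1), ∃ y1 : ℤ, yf x = g1 * y1 ∧
        (h : ℤ) ∣ 2 * α + a' * g1 * y1 := by
      intro x hx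
      rw [Finset.mem_filter] at hx
      obtain ⟨hxX, hxg⟩ := hx
      have hd1 : (g1 : ℤ) ∣ yf x := by
        rw [← hxg]; exact Int.gcd_dvd_left _ _
      obtain ⟨y1, hy1⟩ := hd1
      refine ⟨y1, hy1, ?_⟩
      have hc : IsCoprime y1 (h : ℤ) := by
        have hpos : 0 < Int.gcd (yf x) f := by
          have : G x = Int.gcd (yf x) f := rfl
          rw [← this, hxg]; exact hg1pos
        have h1 := Int.gcd_div_gcd_div_gcd (i := yf x) (j := (f : ℤ)) hpos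
        have hg : Int.gcd (yf x) f = g1 := hxg
        rw [hg, hy1, hfgh, Int.mul_ediv_cancel_left _ hg1z, Int.mul_ediv_cancel_left _ hg1z] at h1
        exact Int.isCoprime_iff_gcd_eq_one.mpr h1
      have h2 := hprod x hxX
      rw [hy1, hfgh] at h2
      obtain ⟨m, hm⟩ := h2
      have h3 : (g1 : ℤ) * (y1 * (2 * α + a' * g1 * y1)) = g1 * (h * m) := by
        linear_combination hm
      have h4 := mul_left_cancel₀ hg1z h3
      have h5 : (h : ℤ) ∣ y1 * (2 * α + a' * g1 * y1) := ⟨m, h4⟩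
      exact hc.symm.dvd_of_dvd_mul_left h5
    have hlL : l ≤ L := by
      obtain ⟨yr, hyr, hyd⟩ := hel xr (Finset.mem_filter.mpr ⟨hxr, hxrg⟩)
      have hl2α : (l : ℤ) ∣ 2 * α := by
        have h1 : (l : ℤ) ∣ 2 * α + a' * g1 * yr := hlh.trans hyd
        have h2 : (l : ℤ) ∣ a' * g1 * yr := hla.trans (dvd_mul_right _ _)
        have h3 := dvd_sub h1 h2
        simpa using h3
      have hlk : (l : ℤ) ∣ (k : ℤ) := by
        rw [hkz, hfgh]
        exact hlh.trans ⟨g1 * k', by ring⟩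
      have ha1 : (l : ℤ) ^ 2 ∣ a1 := by
        rw [ha', hfgh, sq]
        have := mul_dvd_mul hla hlh
        exact this.trans ⟨1, by ring⟩
      have hb1 : (l : ℤ) ^ 2 ∣ 2 * b1 := by
        have e1 : 2 * b1 = 2 * x0 * a1 - k * (2 * α) := by linear_combination (-2) * hα
        rw [e1]
        refine dvd_sub (ha1.trans ⟨2 * x0, by ring⟩) ?_
        rw [sq]; exact mul_dvd_mul hlk hl2α
      have hc1 : (l : ℤ) ^ 2 ∣ c := by
        have e1 : c = k ^ 2 * γ - x0 ^ 2 * a1 + x0 * (2 * b1) := by linear_combination hγ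
        rw [e1]
        refine dvd_add (dvd_sub ((pow_dvd_pow_of_dvd hlk 2).trans ⟨γ, rfl⟩)
          (ha1.trans ⟨x0 ^ 2, by ring⟩)) (hb1.trans ⟨x0, by ring⟩)
      exact hL l ha1 hb1 hc1
    refine le_trans ?_ hlL
    obtain ⟨hq, hhq⟩ : ∃ hq : ℕ, h = l * hq := by
      have : l ∣ h := by exact_mod_cast hlh
      exact this
    have hqpos : 0 < hq := Nat.pos_of_ne_zero (by rintro rfl; simp at hhq; omega)
    have hhqz : (h : ℤ) = l * hq := by exact_mod_cast hhq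
    obtain ⟨a2, ha2⟩ := hla
    have hcop2 : IsCoprime a2 (hq : ℤ) := by
      have h1 := Int.gcd_div_gcd_div_gcd (i := a' * g1) (j := (h : ℤ)) hlpos
      rw [← hl] at h1
      rw [ha2, hhqz, Int.mul_ediv_cancel_left _ hlz, Int.mul_ediv_cancel_left _ hlz] at h1
      exact Int.isCoprime_iff_gcd_eq_one.mpr h1
    apply card_window _ (k' * g1 * hq) l (by positivity)
    · intro x hx y hy'
      obtain ⟨x1, hx1, hxd⟩ := hel x hx
      obtain ⟨y1, hy1, hyd⟩ := hel y hy'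
      have hxX := (Finset.mem_filter.mp hx).1
      have hyX := (Finset.mem_filter.mp hy').1
      have h1 : (h : ℤ) ∣ a' * g1 * (x1 - y1) := by
        have := dvd_sub hxd hyd
        exact this.trans ⟨1, by ring⟩
      rw [ha2, hhqz] at h1
      have h2 : (hq : ℤ) ∣ a2 * (x1 - y1) := by
        obtain ⟨m, hm⟩ := h1
        refine ⟨m, mul_left_cancel₀ hlz ?_⟩
        linear_combination hm
      have h3 : (hq : ℤ) ∣ x1 - y1 := hcop2.symm.dvd_of_dvd_mul_left h2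
      obtain ⟨m, hm⟩ := h3
      have e : x - y = k' * g1 * hq * m := by
        have ex := hy x hxX
        have ey := hy y hyX
        rw [hx1] at ex; rw [hy1] at ey
        linear_combination ex - ey + k' * g1 * hm
      push_cast
      exact ⟨m, e⟩
    · intro x hx y hy'
      have hxX := (Finset.mem_filter.mp hx).1
      have hyX := (Finset.mem_filter.mp hy').1
      have h1 := (hX x hxX).2.1
      have h2 := (hX y hyX).1
      have e : ((k' * g1 * hq : ℕ) : ℤ) * l = k := by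
        rw [hkz, hfgh, hhqz]; push_cast; ring
      rw [e]; linarith
  have h1 := Finset.card_le_mul_card_image X L hfib
  refine h1.trans ?_
  rw [mul_comm]
  refine Nat.mul_le_mul_right _ (Finset.card_le_card ?_)
  intro g hg
  obtain ⟨x, hx, rfl⟩ := Finset.mem_image.mp hg
  exact hdk x hx

/-- Content of a nonzero integer vector. -/
lemma content (w : V3) (hw : dot w w ≠ 0) : ∃ (g : ℕ) (w1 v : V3), 1 ≤ g ∧
    w.1 = g * w1.1 ∧ w.2.1 = g * w1.2.1 ∧ w.2.2 = g * w1.2.2 ∧ dot v w1 = 1 := by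
  obtain ⟨x, y, z⟩ := w
  set g2 : ℕ := Int.gcd y z with hg2
  set g : ℕ := Int.gcd x g2 with hg
  have hgpos : 0 < g := by
    rcases Nat.eq_zero_or_pos g with h0 | h0
    · exfalso
      rw [hg, Int.gcd_eq_zero_iff] at h0
      obtain ⟨hx, h2⟩ := h0
      have h3 : g2 = 0 := by exact_mod_cast h2
      rw [hg2, Int.gcd_eq_zero_iff] at h3
      apply hw
      simp [dot, hx, h3.1, h3.2]
    · exact h0
  have hgz : (g : ℤ) ≠ 0 := by exact_mod_cast hgpos.ne'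
  have hx : (g : ℤ) ∣ x := Int.gcd_dvd_left _ _
  have h2 : (g : ℤ) ∣ (g2 : ℤ) := Int.gcd_dvd_right _ _
  have hy : (g : ℤ) ∣ y := h2.trans (Int.gcd_dvd_left _ _)
  have hz : (g : ℤ) ∣ z := h2.trans (Int.gcd_dvd_right _ _)
  obtain ⟨x1, hx1⟩ := hx
  obtain ⟨y1, hy1⟩ := hy
  obtain ⟨z1, hz1⟩ := hz
  have b1 : (g : ℤ) = x * Int.gcdA x g2 + g2 * Int.gcdB x g2 := Int.gcd_eq_gcd_ab _ _
  have b2 : (g2 : ℤ) = y * Int.gcdA y z + z * Int.gcdB y z := Int.gcd_eq_gcd_ab _ _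
  refine ⟨g, (x1, y1, z1), (Int.gcdA x g2, Int.gcdB x g2 * Int.gcdA y z,
    Int.gcdB x g2 * Int.gcdB y z), hgpos, hx1, hy1, hz1, ?_⟩
  apply mul_left_cancel₀ hgz
  simp only [dot]
  set A := Int.gcdA x g2
  set B := Int.gcdB x g2
  set A2 := Int.gcdA y z
  set B2 := Int.gcdB y z
  calc (g : ℤ) * (A * x1 + B * A2 * y1 + B * B2 * z1)
      = A * (g * x1) + B * (A2 * (g * y1) + B2 * (g * z1)) := by ring
    _ = A * x + B * (A2 * y + B2 * z) := by rw [← hx1, ← hy1, ← hz1]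
    _ = g * 1 := by rw [b1, b2]; ring

/-- The decomposition of a pair. -/
def Dec (P R : V3) (d : ℕ × ℕ × ℤ × V3 × V3) : Prop :=
  1 ≤ d.1 ∧ 1 ≤ d.2.1 ∧ 0 ≤ d.2.2.1 ∧ d.2.2.1 < d.2.1 ∧
  (P.1 = d.1 * d.2.2.2.1.1 ∧ P.2.1 = d.1 * d.2.2.2.1.2.1 ∧ P.2.2 = d.1 * d.2.2.2.1.2.2) ∧
  (R.1 = d.2.2.1 * d.2.2.2.1.1 + d.2.1 * d.2.2.2.2.1 ∧
   R.2.1 = d.2.2.1 * d.2.2.2.1.2.1 + d.2.1 * d.2.2.2.2.2.1 ∧
   R.2.2 = d.2.2.1 * d.2.2.2.1.2.2 + d.2.1 * d.2.2.2.2.2.2) ∧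
  ∃ z, det3 d.2.2.2.1 d.2.2.2.2 z = 1

lemma exists_dec (P R : V3) (hP : dot P P ≠ 0) (hD : dot P P * dot R R - dot P R ^ 2 ≠ 0) :
    ∃ d, Dec P R d := by
  obtain ⟨g, P1, v, hg1, hPx, hPy, hPz, hv⟩ := content P hP
  have hgz : (g : ℤ) ≠ 0 := by exact_mod_cast (show g ≠ 0 by omega)
  have hN : dot (cross P1 R) (cross P1 R) ≠ 0 := by
    intro h0
    apply hD
    have e1 : dot P P * dot R R - dot P R ^ 2 =
        (g : ℤ) ^ 2 * dot (cross P1 R) (cross P1 R) := by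
      simp only [dot, cross, hPx, hPy, hPz]; ring
    rw [e1, h0, mul_zero]
  obtain ⟨k, N1, z0, hk1, hNx, hNy, hNz, hz0⟩ := content (cross P1 R) hN
  have hkz : (k : ℤ) ≠ 0 := by exact_mod_cast (show k ≠ 0 by omega)
  have hkpos : (0 : ℤ) < k := by exact_mod_cast hk1
  set x0 := dot v R with hx0
  set x := x0 % (k : ℤ) with hx
  have hxk : x0 = x + k * (x0 / k) := by
    rw [hx]; exact (Int.emod_add_mul_ediv x0 k).symm
  set m := x0 / (k : ℤ) with hm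
  simp only [cross] at hNx hNy hNz
  -- R1 = m P1 - v x N1
  set R1 : V3 := (m * P1.1 - (v.2.1 * N1.2.2 - v.2.2 * N1.2.1),
    m * P1.2.1 - (v.2.2 * N1.1 - v.1 * N1.2.2), m * P1.2.2 - (v.1 * N1.2.1 - v.2.1 * N1.1)) with hR1
  have hv' : v.1 * P1.1 + v.2.1 * P1.2.1 + v.2.2 * P1.2.2 = 1 := hv
  have hx0' : x0 = v.1 * R.1 + v.2.1 * R.2.1 + v.2.2 * R.2.2 := rfl
  have r1 : R.1 = x * P1.1 + k * R1.1 := by
    simp only [hR1]
    have : (k : ℤ) * (v.2.1 * N1.2.2 - v.2.2 * N1.2.1) = x0 * P1.1 - R.1 := by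
      calc (k : ℤ) * (v.2.1 * N1.2.2 - v.2.2 * N1.2.1)
          = v.2.1 * (k * N1.2.2) - v.2.2 * (k * N1.2.1) := by ring
        _ = x0 * P1.1 - R.1 := by
            rw [← hNz, ← hNy, hx0']; linear_combination (-R.1) * hv'
    linear_combination this + P1.1 * hxk
  have r2 : R.2.1 = x * P1.2.1 + k * R1.2.1 := by
    simp only [hR1]
    have : (k : ℤ) * (v.2.2 * N1.1 - v.1 * N1.2.2) = x0 * P1.2.1 - R.2.1 := by
      calc (k : ℤ) * (v.2.2 * N1.1 - v.1 * N1.2.2)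
          = v.2.2 * (k * N1.1) - v.1 * (k * N1.2.2) := by ring
        _ = x0 * P1.2.1 - R.2.1 := by
            rw [← hNz, ← hNx, hx0']; linear_combination (-R.2.1) * hv'
    linear_combination this + P1.2.1 * hxk
  have r3 : R.2.2 = x * P1.2.2 + k * R1.2.2 := by
    simp only [hR1]
    have : (k : ℤ) * (v.1 * N1.2.1 - v.2.1 * N1.1) = x0 * P1.2.2 - R.2.2 := by
      calc (k : ℤ) * (v.1 * N1.2.1 - v.2.1 * N1.1)
          = v.1 * (k * N1.2.1) - v.2.1 * (k * N1.1) := by ring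
        _ = x0 * P1.2.2 - R.2.2 := by
            rw [← hNy, ← hNx, hx0']; linear_combination (-R.2.2) * hv'
    linear_combination this + P1.2.2 * hxk
  refine ⟨(g, k, x, P1, R1), hg1, hk1, Int.emod_nonneg _ hkz, Int.emod_lt_of_pos _ hkpos,
    ⟨hPx, hPy, hPz⟩, ⟨r1, r2, r3⟩, z0, ?_⟩
  apply mul_left_cancel₀ hkz
  have hz0' : z0.1 * N1.1 + z0.2.1 * N1.2.1 + z0.2.2 * N1.2.2 = 1 := hz0
  have c1 : (k : ℤ) * (P1.2.1 * R1.2.2 - P1.2.2 * R1.2.1) = k * N1.1 := by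
    rw [← hNx, r2, r3]; ring
  have c2 : (k : ℤ) * (P1.2.2 * R1.1 - P1.1 * R1.2.2) = k * N1.2.1 := by
    rw [← hNy, r1, r3]; ring
  have c3 : (k : ℤ) * (P1.1 * R1.2.1 - P1.2.1 * R1.1) = k * N1.2.2 := by
    rw [← hNz, r1, r2]; ring
  simp only [det3, dot, cross]
  linear_combination z0.1 * c1 + z0.2.1 * c2 + z0.2.2 * c3 + k * hz0'

lemma Dec.inj {P R P' R' : V3} {d : ℕ × ℕ × ℤ × V3 × V3} (h : Dec P R d) (h' : Dec P' R' d) :
    P = P' ∧ R = R' := by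
  obtain ⟨-, -, -, -, ⟨a1, a2, a3⟩, ⟨b1, b2, b3⟩, -⟩ := h
  obtain ⟨-, -, -, -, ⟨c1, c2, c3⟩, ⟨d1, d2, d3⟩, -⟩ := h'
  exact ⟨Prod.ext (a1.trans c1.symm) (Prod.ext (a2.trans c2.symm) (a3.trans c3.symm)),
    Prod.ext (b1.trans d1.symm) (Prod.ext (b2.trans d2.symm) (b3.trans d3.symm))⟩

lemma Dec.gram {P R : V3} {d : ℕ × ℕ × ℤ × V3 × V3} (h : Dec P R d) :
    dot P P = (d.1 : ℤ) ^ 2 * dot d.2.2.2.1 d.2.2.2.1 ∧
    dot P R = (d.1 : ℤ) * (d.2.2.1 * dot d.2.2.2.1 d.2.2.2.1 + d.2.1 * dot d.2.2.2.1 d.2.2.2.2) ∧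
    dot R R = d.2.2.1 ^ 2 * dot d.2.2.2.1 d.2.2.2.1 +
      2 * d.2.2.1 * d.2.1 * dot d.2.2.2.1 d.2.2.2.2 + (d.2.1 : ℤ) ^ 2 * dot d.2.2.2.2 d.2.2.2.2 := by
  obtain ⟨-, -, -, -, ⟨a1, a2, a3⟩, ⟨b1, b2, b3⟩, -⟩ := h
  refine ⟨?_, ?_, ?_⟩
  · simp only [dot, a1, a2, a3]; ring
  · simp only [dot, a1, a2, a3, b1, b2, b3]; ring
  · simp only [dot, b1, b2, b3]; ring

/-- **Pairs with given Gram matrix**. -/
lemma rep_bound (hs1 : ∀ n : ℕ, n ≠ 0 → ∀ S : Finset (ZMod n), (∀ t ∈ S, t ^ 2 = 1) →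
      S.card ≤ 2 * n.divisors.card)
    (a b c : ℤ) (A D : ℕ) (hA : (A : ℤ) = a) (hD : (D : ℤ) = a * c - b ^ 2)
    (hA0 : A ≠ 0) (hD0 : D ≠ 0) (L : ℕ)
    (hL : ∀ l : ℕ, (l : ℤ) ^ 2 ∣ a → (l : ℤ) ^ 2 ∣ 2 * b → (l : ℤ) ^ 2 ∣ c → l ≤ L)
    (S : Finset (V3 × V3))
    (hS : ∀ p ∈ S, dot p.1 p.1 = a ∧ dot p.1 p.2 = b ∧ dot p.2 p.2 = c) :
    S.card ≤ (3 ^ 9 * (2 * D.divisors.card)) * (D.divisors.card * L) *
      (A.divisors.card * D.divisors.card) := by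
  classical
  have hDz : (D : ℤ) ≠ 0 := by exact_mod_cast hD0
  have haz : a ≠ 0 := by rw [← hA]; exact_mod_cast hA0
  have hdec : ∀ p ∈ S, ∃ d, Dec p.1 p.2 d := by
    intro p hp
    obtain ⟨ha, hb, hc⟩ := hS p hp
    apply exists_dec
    · rw [ha]; exact haz
    · rw [ha, hb, hc, ← hD]; exact hDz
  choose! F hF using hdec
  -- facts
  have hg : ∀ p ∈ S, ((F p).1 : ℤ) ^ 2 * dot (F p).2.2.2.1 (F p).2.2.2.1 = a := by
    intro p hp; rw [← (hF p hp).gram.1]; exact (hS p hp).1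
  have hb : ∀ p ∈ S, ((F p).1 : ℤ) * ((F p).2.2.1 * dot (F p).2.2.2.1 (F p).2.2.2.1 +
      (F p).2.1 * dot (F p).2.2.2.1 (F p).2.2.2.2) = b := by
    intro p hp; rw [← (hF p hp).gram.2.1]; exact (hS p hp).2.1
  have hc : ∀ p ∈ S, (F p).2.2.1 ^ 2 * dot (F p).2.2.2.1 (F p).2.2.2.1 +
      2 * (F p).2.2.1 * (F p).2.1 * dot (F p).2.2.2.1 (F p).2.2.2.2 +
      ((F p).2.1 : ℤ) ^ 2 * dot (F p).2.2.2.2 (F p).2.2.2.2 = c := by
    intro p hp; rw [← (hF p hp).gram.2.2]; exact (hS p hp).2.2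
  have hDd : ∀ p ∈ S, (D : ℤ) = ((F p).1 : ℤ) ^ 2 * ((F p).2.1 : ℤ) ^ 2 *
      (dot (F p).2.2.2.1 (F p).2.2.2.1 * dot (F p).2.2.2.2 (F p).2.2.2.2 -
        dot (F p).2.2.2.1 (F p).2.2.2.2 ^ 2) := by
    intro p hp
    rw [hD, ← hg p hp, ← hb p hp, ← hc p hp]; ring
  have himg : (S.image (fun p => ((F p).1, (F p).2.1))).card ≤
      A.divisors.card * D.divisors.card := by
    rw [← Finset.card_product]
    apply Finset.card_le_card
    intro q hq
    obtain ⟨p, hp, rfl⟩ := Finset.mem_image.mp hq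
    rw [Finset.mem_product, Nat.mem_divisors, Nat.mem_divisors]
    refine ⟨⟨?_, hA0⟩, ?_, hD0⟩
    · have h1 : ((F p).1 : ℤ) ∣ (A : ℤ) := by
        rw [hA, ← hg p hp]; exact ⟨(F p).1 * dot (F p).2.2.2.1 (F p).2.2.2.1, by ring⟩
      exact_mod_cast h1
    · have h1 : ((F p).2.1 : ℤ) ∣ (D : ℤ) := by
        rw [hDd p hp]
        exact ⟨((F p).1 : ℤ) ^ 2 * ((F p).2.1 : ℤ) * (dot (F p).2.2.2.1 (F p).2.2.2.1 *
          dot (F p).2.2.2.2 (F p).2.2.2.2 - dot (F p).2.2.2.1 (F p).2.2.2.2 ^ 2), by ring⟩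
      exact_mod_cast h1
  refine (Finset.card_le_mul_card_image (f := fun p => ((F p).1, (F p).2.1)) S _ ?_).trans
    (Nat.mul_le_mul_left _ himg)
  intro q hq
  obtain ⟨p1, hp1, rfl⟩ := Finset.mem_image.mp hq
  set g := (F p1).1 with hgdef
  set k := (F p1).2.1 with hkdef
  set a1 := dot (F p1).2.2.2.1 (F p1).2.2.2.1 with ha1
  set b1 := (F p1).2.2.1 * a1 + k * dot (F p1).2.2.2.1 (F p1).2.2.2.2 with hb1
  have hg1 : 1 ≤ g := (hF p1 hp1).1
  have hk1 : 1 ≤ k := (hF p1 hp1).2.1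
  have hgz : (g : ℤ) ≠ 0 := by exact_mod_cast (show g ≠ 0 by omega)
  have hkz : (k : ℤ) ≠ 0 := by exact_mod_cast (show k ≠ 0 by omega)
  have hga : (g : ℤ) ^ 2 * a1 = a := hg p1 hp1
  have hgb : (g : ℤ) * b1 = b := hb p1 hp1
  set S1 := S.filter (fun x => ((F x).1, (F x).2.1) = (g, k)) with hS1
  have hmem : ∀ p ∈ S1, p ∈ S ∧ (F p).1 = g ∧ (F p).2.1 = k := by
    intro p hp
    rw [hS1, Finset.mem_filter, Prod.mk.injEq] at hp
    exact ⟨hp.1, hp.2.1, hp.2.2⟩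
  have haa : ∀ p ∈ S1, dot (F p).2.2.2.1 (F p).2.2.2.1 = a1 := by
    intro p hp
    obtain ⟨hpS, e1, e2⟩ := hmem p hp
    have h1 := hg p hpS
    rw [e1, ← hga] at h1
    exact mul_left_cancel₀ (pow_ne_zero 2 hgz) h1
  have hbb : ∀ p ∈ S1, (F p).2.2.1 * a1 + k * dot (F p).2.2.2.1 (F p).2.2.2.2 = b1 := by
    intro p hp
    obtain ⟨hpS, e1, e2⟩ := hmem p hp
    have h1 := hb p hpS
    rw [e1, e2, haa p hp, ← hgb] at h1
    exact mul_left_cancel₀ hgz h1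
  have hcc : ∀ p ∈ S1, (k : ℤ) ^ 2 * dot (F p).2.2.2.2 (F p).2.2.2.2 =
      (F p).2.2.1 ^ 2 * a1 - 2 * (F p).2.2.1 * b1 + c := by
    intro p hp
    obtain ⟨hpS, e1, e2⟩ := hmem p hp
    have h1 := hc p hpS
    rw [e2, haa p hp] at h1
    have h2 := hbb p hp
    linear_combination h1 - 2 * (F p).2.2.1 * h2
  have himg2 : (S1.image (fun p => (F p).2.2.1)).card ≤ D.divisors.card * L := by
    have h1 : (S1.image (fun p => (F p).2.2.1)).card ≤ k.divisors.card * L := by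
      refine count_x a1 b1 c k hk1 L ?_ _ ?_
      · intro l hl1 hl2 hl3
        refine hL l ?_ ?_ hl3
        · rw [← hga]; exact hl1.trans (dvd_mul_left _ _)
        · rw [← hgb]; exact hl2.trans ⟨g, by ring⟩
      · intro x hx
        obtain ⟨p, hp, rfl⟩ := Finset.mem_image.mp hx
        obtain ⟨hpS, e1, e2⟩ := hmem p hp
        have hd := hF p hpS
        refine ⟨hd.2.2.1, ?_, ?_, ?_⟩
        · have := hd.2.2.2.1; rw [e2] at this; exact this
        · refine ⟨-dot (F p).2.2.2.1 (F p).2.2.2.2, ?_⟩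
          linear_combination (hbb p hp)
        · exact ⟨_, (hcc p hp).symm⟩
    refine h1.trans (Nat.mul_le_mul_right _ (Finset.card_le_card ?_))
    apply Nat.divisors_subset_of_dvd hD0
    have h2 : (k : ℤ) ∣ (D : ℤ) := by
      rw [hDd p1 hp1]
      exact ⟨((F p1).1 : ℤ) ^ 2 * ((F p1).2.1 : ℤ) * (dot (F p1).2.2.2.1 (F p1).2.2.2.1 *
        dot (F p1).2.2.2.2 (F p1).2.2.2.2 - dot (F p1).2.2.2.1 (F p1).2.2.2.2 ^ 2), by
          rw [← hkdef]; ring⟩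
    exact_mod_cast h2
  refine (Finset.card_le_mul_card_image (f := fun p => (F p).2.2.1) S1 _ ?_).trans
    (Nat.mul_le_mul_left _ himg2)
  intro x hx
  obtain ⟨p2, hp2, rfl⟩ := Finset.mem_image.mp hx
  set x := (F p2).2.2.1 with hxdef
  set S2 := S1.filter (fun p => (F p).2.2.1 = x) with hS2
  have hinj : (S2.image (fun p => ((F p).2.2.2.1, (F p).2.2.2.2))).card = S2.card := by
    apply Finset.card_image_of_injOn
    intro p hp p' hp' he
    have hp2' := Finset.mem_filter.mp hp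
    have hp'2' := Finset.mem_filter.mp hp'
    obtain ⟨hpS, e1, e2⟩ := hmem p hp2'.1
    obtain ⟨hp'S, e1', e2'⟩ := hmem p' hp'2'.1
    simp only [Prod.mk.injEq] at he
    have hFe : F p = F p' := by
      refine Prod.ext (e1.trans e1'.symm) (Prod.ext (e2.trans e2'.symm)
        (Prod.ext (hp2'.2.trans hp'2'.2.symm) (Prod.ext he.1 he.2)))
    have h1 := hF p hpS
    have h2 := hF p' hp'S
    rw [hFe] at h1
    obtain ⟨r1, r2⟩ := h1.inj h2
    exact Prod.ext r1 r2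
  rw [← hinj]
  set b' := dot (F p2).2.2.2.1 (F p2).2.2.2.2 with hb'
  set c' := dot (F p2).2.2.2.2 (F p2).2.2.2.2 with hc'
  obtain ⟨hp2S, e1, e2⟩ := hmem p2 hp2
  have hDD := hDd p2 hp2S
  rw [e1, e2, haa p2 hp2, ← hb', ← hc'] at hDD
  have hgkpos : (0 : ℤ) < (g : ℤ) ^ 2 * (k : ℤ) ^ 2 := by positivity
  have hDpos : (0 : ℤ) < D := by exact_mod_cast Nat.pos_of_ne_zero hD0
  have hD1pos : 0 < a1 * c' - b' ^ 2 := by
    rw [hDD] at hDpos
    exact (pos_iff_pos_of_mul_pos hDpos).mp hgkpos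
  set D1 := (a1 * c' - b' ^ 2).toNat with hD1
  have hD1z : (D1 : ℤ) = a1 * c' - b' ^ 2 := Int.toNat_of_nonneg hD1pos.le
  have hD10 : D1 ≠ 0 := by
    intro h0; rw [h0] at hD1z; push_cast at hD1z; omega
  have hD1d : D1 ∣ D := by
    have : (D1 : ℤ) ∣ (D : ℤ) := by
      rw [hDD, hD1z]; exact dvd_mul_left _ _
    exact_mod_cast this
  have hmain := prim_pairs a1 b' c' D1 hD1z hD10 (2 * D1.divisors.card) (hs1 D1 hD10)
    (S2.image (fun p => ((F p).2.2.2.1, (F p).2.2.2.2))) (by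
      intro q hq
      obtain ⟨p, hp, rfl⟩ := Finset.mem_image.mp hq
      obtain ⟨hpS1, hpx⟩ := Finset.mem_filter.mp hp
      obtain ⟨hpS, f1, f2⟩ := hmem p hpS1
      refine ⟨haa p hpS1, ?_, ?_, (hF p hpS).2.2.2.2.2.2⟩
      · apply mul_left_cancel₀ hkz
        have h1 := hbb p hpS1
        have h2 := hbb p2 hp2
        rw [hpx] at h1
        rw [← hb', ← hxdef] at h2
        linear_combination h1 - h2
      · apply mul_left_cancel₀ (pow_ne_zero 2 hkz)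
        have h1 := hcc p hpS1
        have h2 := hcc p2 hp2
        rw [hpx] at h1
        rw [← hc', ← hxdef] at h2
        rw [h1, h2])
  refine hmain.trans (Nat.mul_le_mul_left _ (Nat.mul_le_mul_left _ (Finset.card_le_card ?_)))
  exact Nat.divisors_subset_of_dvd hD0 hD1d

end Pool.Agent.SU21
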