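import Pool.Agent.SU21.Defs

/-!
# SU21, module Str: the relations between the entries of an element of `SU(2,1; Z[i])` (helper98)
-/

set_option autoImplicit false

namespace Pool.Agent.SU21

open Matrix

/-- square matrices of size 3 over the Gaussian integers -/
abbrev Str.Mat : Type := Matrix (Fin 3) (Fin 3) GaussianInt

/-! ## Basic relations -/

lemma Str.J_mul_J : J * J = (1 : Str.Mat) := by
  rw [J, Matrix.diagonal_mul_diagonal, ← Matrix.diagonal_one]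
  congr 1
  funext i
  fin_cases i <;> simp

lemma IsSU.left_inv {g : Str.Mat} (h : IsSU g) : (J * gᴴ * J) * g = 1 := by
  have := h.1
  calc (J * gᴴ * J) * g = J * (gᴴ * J * g) := by simp only [Matrix.mul_assoc]
    _ = J * J := by rw [this]
    _ = 1 := Str.J_mul_J

lemma IsSU.right_inv {g : Str.Mat} (h : IsSU g) : g * (J * gᴴ * J) = 1 :=
  mul_eq_one_comm.mp h.left_inv

lemma IsSU.rows {g : Str.Mat} (h : IsSU g) : g * J * gᴴ = J := by
  have h1 := h.right_inv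
  calc g * J * gᴴ = (g * (J * gᴴ * J)) * J := by
        simp only [Matrix.mul_assoc, Str.J_mul_J, Matrix.mul_one]
    _ = J := by rw [h1, Matrix.one_mul]

lemma IsSU.adj {g : Str.Mat} (h : IsSU g) : g.adjugate = J * gᴴ * J := by
  have h1 : g.adjugate * g = 1 := by rw [Matrix.adjugate_mul, h.2, one_smul]
  calc g.adjugate = g.adjugate * (g * (J * gᴴ * J)) := by rw [h.right_inv, Matrix.mul_one]
    _ = J * gᴴ * J := by rw [← Matrix.mul_assoc, h1, Matrix.one_mul]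

/-- the entries of `g^* J g = J` -/
lemma IsSU.col {g : Str.Mat} (h : IsSU g) (i j : Fin 3) :
    star (g 0 i) * g 0 j + star (g 1 i) * g 1 j - star (g 2 i) * g 2 j = J i j := by
  have := congrFun (congrFun h.1 i) j
  rw [← this]
  simp [Matrix.mul_apply, Fin.sum_univ_three, J, Matrix.diagonal]
  ring

/-- the entries of `g J g^* = J` -/
lemma IsSU.rw {g : Str.Mat} (h : IsSU g) (i j : Fin 3) :
    g i 0 * star (g j 0) + g i 1 * star (g j 1) - g i 2 * star (g j 2) = J i j := by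
  have := congrFun (congrFun h.rows i) j
  rw [← this]
  simp [Matrix.mul_apply, Fin.sum_univ_three, J, Matrix.diagonal]
  ring

lemma Str.norm_eq (z : GaussianInt) : Zsqrtd.norm z = z.re * z.re + z.im * z.im := by
  rw [Zsqrtd.norm_def]; ring

/-- `w w^* + 1 = |delta|^2` -/
lemma IsSU.row {g : Matrix (Fin 3) (Fin 3) GaussianInt} (h : IsSU g) :
    Zsqrtd.norm (g 2 0) + Zsqrtd.norm (g 2 1) + 1 = Zsqrtd.norm (g 2 2) := by
  have := congrArg Zsqrtd.re (h.rw 2 2)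
  simp [J] at this
  simp only [Str.norm_eq]
  linarith

/-- norm of the first column -/
lemma IsSU.col0 {g : Matrix (Fin 3) (Fin 3) GaussianInt} (h : IsSU g) :
    Zsqrtd.norm (g 0 0) + Zsqrtd.norm (g 1 0) = Zsqrtd.norm (g 2 0) + 1 := by
  have := congrArg Zsqrtd.re (h.col 0 0)
  simp [J] at this
  simp only [Str.norm_eq]
  linarith

lemma IsSU.col1 {g : Matrix (Fin 3) (Fin 3) GaussianInt} (h : IsSU g) :
    Zsqrtd.norm (g 0 1) + Zsqrtd.norm (g 1 1) = Zsqrtd.norm (g 2 1) + 1 := by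
  have := congrArg Zsqrtd.re (h.col 1 1)
  simp [J] at this
  simp only [Str.norm_eq]
  linarith

lemma IsSU.col2 {g : Matrix (Fin 3) (Fin 3) GaussianInt} (h : IsSU g) :
    Zsqrtd.norm (g 0 2) + Zsqrtd.norm (g 1 2) + 1 = Zsqrtd.norm (g 2 2) := by
  have := congrArg Zsqrtd.re (h.col 2 2)
  simp [J] at this
  simp only [Str.norm_eq]
  linarith

lemma IsSU.blk {g : Matrix (Fin 3) (Fin 3) GaussianInt} (h : IsSU g) :
    Zsqrtd.norm (g 0 0) + Zsqrtd.norm (g 0 1) + Zsqrtd.norm (g 1 0) + Zsqrtd.norm (g 1 1)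
      = Zsqrtd.norm (g 2 2) + 1 := by
  have h0 := h.col0
  have h1 := h.col1
  have h2 := h.row
  linarith

lemma IsSU.tot {g : Matrix (Fin 3) (Fin 3) GaussianInt} (h : IsSU g) :
    nsq g = 4 * Zsqrtd.norm (g 2 2) - 1 := by
  have h0 := h.col0
  have h1 := h.col1
  have h2 := h.row
  have h3 := h.col2
  simp only [nsq, Fin.sum_univ_three]
  linarith

lemma IsSU.w00 {g : Matrix (Fin 3) (Fin 3) GaussianInt} (h : IsSU g) :
    star (g 2 0) * g 2 0 = star (g 0 0) * g 0 0 + star (g 1 0) * g 1 0 - 1 := by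
  have := h.col 0 0
  have hJ : J 0 0 = 1 := by simp [J]
  rw [hJ] at this
  linear_combination -this

lemma IsSU.w01 {g : Matrix (Fin 3) (Fin 3) GaussianInt} (h : IsSU g) :
    star (g 2 0) * g 2 1 = star (g 0 0) * g 0 1 + star (g 1 0) * g 1 1 := by
  have := h.col 0 1
  have hJ : J 0 1 = 0 := by simp [J]
  rw [hJ] at this
  linear_combination -this

lemma Str.norm_nonneg' (z : GaussianInt) : 0 ≤ Zsqrtd.norm z := by
  rw [Str.norm_eq]; nlinarith [mul_self_nonneg z.re, mul_self_nonneg z.im]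

lemma IsSU.delta_ne {g : Matrix (Fin 3) (Fin 3) GaussianInt} (h : IsSU g) : g 2 2 ≠ 0 := by
  intro h0
  have h1 := h.row
  have h2 := Str.norm_nonneg' (g 2 0)
  have h3 := Str.norm_nonneg' (g 2 1)
  rw [h0] at h1
  simp at h1
  linarith

lemma IsSU.ext {g k : Matrix (Fin 3) (Fin 3) GaussianInt} (hg : IsSU g) (hk : IsSU k)
    (h00 : g 0 0 = k 0 0) (h01 : g 0 1 = k 0 1) (h10 : g 1 0 = k 1 0) (h11 : g 1 1 = k 1 1)
    (h20 : g 2 0 = k 2 0) (h21 : g 2 1 = k 2 1) (h22 : g 2 2 = k 2 2) : g = k := by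
  have hs : star (g 2 2) ≠ 0 := by simpa using hg.delta_ne
  have key : ∀ i : Fin 3, J i 2 = 0 → g i 0 = k i 0 → g i 1 = k i 1 → g i 2 = k i 2 := by
    intro i hJ e0 e1
    have a := hg.rw i 2
    have b := hk.rw i 2
    rw [hJ] at a b
    rw [← e0, ← e1, ← h20, ← h21, ← h22] at b
    have : g i 2 * star (g 2 2) = k i 2 * star (g 2 2) := by linear_combination b - a
    exact mul_right_cancel₀ hs this
  have h02 : g 0 2 = k 0 2 := key 0 (by simp [J]) h00 h01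
  have h12 : g 1 2 = k 1 2 := key 1 (by simp [J]) h10 h11
  ext1 i j
  fin_cases i <;> fin_cases j <;> assumption

/-- the elements with `|delta| = 1`: finitely many -/
lemma IsSU.card_one (S : Finset (Matrix (Fin 3) (Fin 3) GaussianInt))
    (hS : ∀ g ∈ S, IsSU g ∧ Zsqrtd.norm (g 2 2) = 1) : S.card ≤ 9 ^ 9 := by
  classical
  let f : (Fin 3 → Fin 3 → Fin 3 × Fin 3) → Str.Mat := fun u => fun i j => ⟨((u i j).1 : ℤ) - 1, ((u i j).2 : ℤ) - 1⟩
  have hsub : ∀ g ∈ S, ∃ u, f u = g := by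
    intro g hg
    obtain ⟨h, h1⟩ := hS g hg
    have hle : ∀ i j, Zsqrtd.norm (g i j) ≤ 1 := by
      have r := h.row
      have c0 := h.col0
      have c1 := h.col1
      have c2 := h.col2
      have p := fun i j => Str.norm_nonneg' (g i j)
      intro i j
      have q00 := p 0 0
      have q01 := p 0 1
      have q02 := p 0 2
      have q10 := p 1 0
      have q11 := p 1 1
      have q12 := p 1 2
      have q20 := p 2 0
      have q21 := p 2 1
      fin_cases i <;> fin_cases j <;> simp <;> linarith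
    have hb : ∀ x y : ℤ, x * x + y * y ≤ 1 → (0 ≤ x + 1 ∧ x + 1 < 3) ∧ (0 ≤ y + 1 ∧ y + 1 < 3) := by
      intro x y hxy
      refine ⟨⟨?_, ?_⟩, ?_, ?_⟩ <;> nlinarith [mul_self_nonneg x, mul_self_nonneg y]
    have hb' : ∀ i j, (0 ≤ (g i j).re + 1 ∧ (g i j).re + 1 < 3) ∧ (0 ≤ (g i j).im + 1 ∧ (g i j).im + 1 < 3) := by
      intro i j
      apply hb
      rw [← Str.norm_eq]
      exact hle i j
    refine ⟨fun i j => (⟨((g i j).re + 1).toNat, by have := hb' i j; omega⟩, ⟨((g i j).im + 1).toNat, by have := hb' i j; omega⟩), ?_⟩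
    ext i j
    · have := hb' i j
      simp only [f]
      omega
    · have := hb' i j
      simp only [f]
      omega
  choose u hu using hsub
  have hinj : Function.Injective (fun g : S => u g.1 g.2) := by
    intro a b hab
    apply Subtype.ext
    rw [← hu a.1 a.2, ← hu b.1 b.2]
    exact congrArg f hab
  have hc := Fintype.card_le_of_injective _ hinj
  rw [Fintype.card_coe] at hc
  refine hc.trans ?_
  simp [Fintype.card_pi]

/-! ## Minors -/

lemma IsSU.min22 {g : Str.Mat} (h : IsSU g) : g 0 0 * g 1 1 - g 0 1 * g 1 0 = star (g 2 2) := by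
  have := congrFun (congrFun h.adj 2) 2
  rw [Matrix.adjugate_fin_three] at this
  simpa [Matrix.mul_apply, Fin.sum_univ_three, J, Matrix.diagonal] using this

lemma IsSU.min00 {g : Str.Mat} (h : IsSU g) : g 1 1 * g 2 2 - g 1 2 * g 2 1 = star (g 0 0) := by
  have := congrFun (congrFun h.adj 0) 0
  rw [Matrix.adjugate_fin_three] at this
  simpa [Matrix.mul_apply, Fin.sum_univ_three, J, Matrix.diagonal] using this

lemma IsSU.min11 {g : Str.Mat} (h : IsSU g) : g 0 0 * g 2 2 - g 0 2 * g 2 0 = star (g 1 1) := by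
  have := congrFun (congrFun h.adj 1) 1
  rw [Matrix.adjugate_fin_three] at this
  simpa [Matrix.mul_apply, Fin.sum_univ_three, J, Matrix.diagonal] using this

lemma IsSU.id1 {g : Str.Mat} (h : IsSU g) :
    ((g 0 1).re + (g 1 0).re) ^ 2 + ((g 1 0).im - (g 0 1).im) ^ 2 + ((g 0 0).re - (g 1 1).re) ^ 2
      = ((g 2 2).re - 1) ^ 2 + (g 2 2).im ^ 2 - ((g 0 0).im + (g 1 1).im) ^ 2 := by
  have hb := h.blk
  have hm := congrArg Zsqrtd.re h.min22
  simp only [Str.norm_eq] at hb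
  simp at hm
  linear_combination hb - 2 * hm

lemma IsSU.id2 {g : Str.Mat} (h : IsSU g) :
    ((g 0 1).im + (g 1 0).im) ^ 2 + ((g 0 1).re - (g 1 0).re) ^ 2 + ((g 0 0).im - (g 1 1).im) ^ 2
      = ((g 2 2).re + 1) ^ 2 + (g 2 2).im ^ 2 - ((g 0 0).re + (g 1 1).re) ^ 2 := by
  have hb := h.blk
  have hm := congrArg Zsqrtd.re h.min22
  simp only [Str.norm_eq] at hb
  simp at hm
  linear_combination hb + 2 * hm

lemma IsSU.id3 {g : Str.Mat} (h : IsSU g) :
    ((g 0 1).re + (g 1 0).re) * ((g 0 1).im + (g 1 0).im)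
      + ((g 1 0).im - (g 0 1).im) * ((g 0 1).re - (g 1 0).re)
      + ((g 0 0).re - (g 1 1).re) * ((g 0 0).im - (g 1 1).im)
      = ((g 0 0).re + (g 1 1).re) * ((g 0 0).im + (g 1 1).im) + 2 * (g 2 2).im := by
  have hm := congrArg Zsqrtd.im h.min22
  simp at hm
  linear_combination (-2) * hm

/-! ## Divisibility -/

lemma Str.div_a {q Q : ℕ} (hQ : (Odd q ∧ Q = q) ∨ q = 2 * Q) {x A : ℤ} (h : 2 * x = q * A) :
    ∃ d : ℤ, (q : ℤ) * x = Q ^ 2 * d := by
  rcases hQ with ⟨ho, rfl⟩ | rfl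
  · have hc : IsCoprime (Q : ℤ) 2 := by
      rw [Int.isCoprime_iff_gcd_eq_one]
      simpa [Int.gcd] using ho.coprime_two_right
    obtain ⟨d, hd⟩ : (Q : ℤ) ∣ x := hc.dvd_of_dvd_mul_left ⟨A, h⟩
    exact ⟨d, by rw [hd]; ring⟩
  · push_cast at h
    refine ⟨2 * A, ?_⟩
    have : x = Q * A := by linarith
    rw [this]; push_cast; ring

lemma Str.div_b {q Q : ℕ} (hQ : (Odd q ∧ Q = q) ∨ q = 2 * Q) {x A : ℤ} (h : 2 * x = q ^ 2 * A) :
    ∃ d : ℤ, (q : ℤ) * x = Q ^ 3 * d := by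
  rcases hQ with ⟨ho, rfl⟩ | rfl
  · have hc : IsCoprime (Q : ℤ) 2 := by
      rw [Int.isCoprime_iff_gcd_eq_one]
      simpa [Int.gcd] using ho.coprime_two_right
    obtain ⟨d, hd⟩ : (Q : ℤ) ^ 2 ∣ x := (hc.pow_left).dvd_of_dvd_mul_left ⟨A, h⟩
    exact ⟨d, by rw [hd]; ring⟩
  · push_cast at h
    refine ⟨4 * A, ?_⟩
    have : x = 2 * Q ^ 2 * A := by linarith
    rw [this]; push_cast; ring

lemma Str.div_c {q Q : ℕ} (hQ : (Odd q ∧ Q = q) ∨ q = 2 * Q) {x A : ℤ} (h : x = q * A) :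
    ∃ d : ℤ, (q : ℤ) * x = Q ^ 2 * d := by
  rcases hQ with ⟨ho, rfl⟩ | rfl
  · exact ⟨A, by rw [h]; ring⟩
  · exact ⟨4 * A, by rw [h]; push_cast; ring⟩

lemma Str.div_d {q Q : ℕ} (hQ : (Odd q ∧ Q = q) ∨ q = 2 * Q) (x : ℤ) :
    ∃ d : ℤ, (q : ℤ) * x = Q * d := by
  rcases hQ with ⟨ho, rfl⟩ | rfl
  · exact ⟨x, rfl⟩
  · exact ⟨2 * x, by push_cast; ring⟩

/-- integer data of an element of Gamma(q) -/
structure Dat (Q : ℕ) (g : Matrix (Fin 3) (Fin 3) GaussianInt) (d1 d2 t1 t2 s : ℤ) (P R : V3) : Prop where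
  dre : (g 2 2).re = 1 + Q ^ 2 * d1
  dim : (g 2 2).im = Q * d2
  tre : (g 0 0).re + (g 1 1).re = 2 + Q ^ 2 * t1
  tim : (g 0 0).im + (g 1 1).im = Q * t2
  hs : t2 + d2 = Q ^ 2 * s
  p1 : (g 0 1).re + (g 1 0).re = Q ^ 2 * P.1
  p2 : (g 1 0).im - (g 0 1).im = Q ^ 2 * P.2.1
  p3 : (g 0 0).re - (g 1 1).re = Q ^ 2 * P.2.2
  r1 : (g 0 1).im + (g 1 0).im = Q * R.1
  r2 : (g 0 1).re - (g 1 0).re = Q * R.2.1
  r3 : (g 0 0).im - (g 1 1).im = Q * R.2.2
  ga : dot P P = d1 ^ 2 + Q ^ 2 * s ^ 2 - 2 * t2 * s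
  gb : dot P R = 2 * s + t1 * t2
  gc : dot R R = 4 * (d1 - t1) + Q ^ 2 * (d1 ^ 2 - t1 ^ 2) + d2 ^ 2

lemma IsSU.dat {g : Matrix (Fin 3) (Fin 3) GaussianInt} (hg : IsSU g) (q Q : ℕ) (hQ1 : 1 ≤ Q)
    (hQ : (Odd q ∧ Q = q) ∨ q = 2 * Q) (hc : CongOne q g) :
    ∃ d1 d2 t1 t2 s : ℤ, ∃ P R : V3, Dat Q g d1 d2 t1 t2 s P R := by
  have hq1 : 1 ≤ q := by rcases hQ with ⟨_, h⟩ | h <;> omega
  have hq0 : (q : ℤ) ≠ 0 := by exact_mod_cast (by omega : q ≠ 0)
  have hqG : (q : GaussianInt) ≠ 0 := by exact_mod_cast (by omega : q ≠ 0)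
  have hQ0 : (Q : ℤ) ≠ 0 := by exact_mod_cast (by omega : Q ≠ 0)
  choose X hX using hc
  have e00 : g 0 0 = 1 + q * X 0 0 := by rw [← hX]; simp
  have e11 : g 1 1 = 1 + q * X 1 1 := by rw [← hX]; simp
  have e22 : g 2 2 = 1 + q * X 2 2 := by rw [← hX]; simp
  have e01 : g 0 1 = q * X 0 1 := by rw [← hX]; simp
  have e02 : g 0 2 = q * X 0 2 := by rw [← hX]; simp
  have e10 : g 1 0 = q * X 1 0 := by rw [← hX]; simp
  have e12 : g 1 2 = q * X 1 2 := by rw [← hX]; simp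
  have e20 : g 2 0 = q * X 2 0 := by rw [← hX]; simp
  have e21 : g 2 1 = q * X 2 1 := by rw [← hX]; simp
  -- the trace identity
  have htr : (X 0 0 + X 1 1 + X 2 2) - star (X 0 0 + X 1 1 + X 2 2) = (q : GaussianInt) ^ 2 *
      (X 0 0 * X 1 1 * X 2 2 - X 0 0 * X 1 2 * X 2 1 - X 0 1 * X 1 0 * X 2 2
        + X 0 1 * X 1 2 * X 2 0 + X 0 2 * X 1 0 * X 2 1 - X 0 2 * X 1 1 * X 2 0) := by
    have hd := hg.2
    rw [Matrix.det_fin_three, e00, e11, e22, e01, e02, e10, e12, e20, e21] at hd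
    have m0 := hg.min00
    have m1 := hg.min11
    have m2 := hg.min22
    rw [e00, e11, e22, e12, e21] at m0
    rw [e00, e22, e02, e20, e11] at m1
    rw [e00, e11, e01, e10, e22] at m2
    simp only [star_add, star_mul, star_one, star_natCast] at m0 m1 m2 ⊢
    apply mul_left_cancel₀ hqG
    linear_combination m0 + m1 + m2 - hd
  obtain ⟨E, hE⟩ : ∃ E : ℤ, 2 * ((X 0 0).im + (X 1 1).im + (X 2 2).im) = (q : ℤ) ^ 2 * E := by
    have htr' := congrArg Zsqrtd.im htr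
    set D := X 0 0 * X 1 1 * X 2 2 - X 0 0 * X 1 2 * X 2 1 - X 0 1 * X 1 0 * X 2 2
        + X 0 1 * X 1 2 * X 2 0 + X 0 2 * X 1 0 * X 2 1 - X 0 2 * X 1 1 * X 2 0
    refine ⟨D.im, ?_⟩
    have hq2 : ((q : GaussianInt) ^ 2 * D).im = (q : ℤ) ^ 2 * D.im := by
      rw [pow_two, mul_assoc]
      simp
      ring
    rw [hq2] at htr'
    rw [← htr']
    simp
    ring
  -- real parts
  have f2 := hg.row
  have f0 := hg.col0
  have f1 := hg.col1
  simp only [Str.norm_eq] at f0 f1 f2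
  have g01re := congrArg Zsqrtd.re (hg.col 0 1)
  have g01im := congrArg Zsqrtd.im (hg.col 0 1)
  have i1 := hg.id1
  have i2 := hg.id2
  have i3 := hg.id3
  have a00 : (g 0 0).re = 1 + q * (X 0 0).re := by rw [e00]; simp
  have a11 : (g 1 1).re = 1 + q * (X 1 1).re := by rw [e11]; simp
  have a22 : (g 2 2).re = 1 + q * (X 2 2).re := by rw [e22]; simp
  have a01 : (g 0 1).re = q * (X 0 1).re := by rw [e01]; simp
  have a10 : (g 1 0).re = q * (X 1 0).re := by rw [e10]; simp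
  have a20 : (g 2 0).re = q * (X 2 0).re := by rw [e20]; simp
  have a21 : (g 2 1).re = q * (X 2 1).re := by rw [e21]; simp
  have b00 : (g 0 0).im = q * (X 0 0).im := by rw [e00]; simp
  have b11 : (g 1 1).im = q * (X 1 1).im := by rw [e11]; simp
  have b22 : (g 2 2).im = q * (X 2 2).im := by rw [e22]; simp
  have b01 : (g 0 1).im = q * (X 0 1).im := by rw [e01]; simp
  have b10 : (g 1 0).im = q * (X 1 0).im := by rw [e10]; simp
  have b20 : (g 2 0).im = q * (X 2 0).im := by rw [e20]; simp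
  have b21 : (g 2 1).im = q * (X 2 1).im := by rw [e21]; simp
  simp [J] at g01re g01im
  rw [a20, b20, a21, b21, a22, b22] at f2
  rw [a00, b00, a10, b10, a20, b20] at f0
  rw [a01, b01, a11, b11, a21, b21] at f1
  rw [a00, a01, b00, b01, a10, a11, b10, b11, a20, a21, b20, b21] at g01re
  rw [a00, a01, b00, b01, a10, a11, b10, b11, a20, a21, b20, b21] at g01im
  obtain ⟨d1, hd1⟩ := Str.div_a hQ (x := (X 2 2).re)
    (A := (X 2 0).re ^ 2 + (X 2 0).im ^ 2 + (X 2 1).re ^ 2 + (X 2 1).im ^ 2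
      - (X 2 2).re ^ 2 - (X 2 2).im ^ 2) (by
      apply mul_left_cancel₀ hq0
      linear_combination -f2)
  obtain ⟨ta, hta⟩ := Str.div_a hQ (x := (X 0 0).re)
    (A := (X 2 0).re ^ 2 + (X 2 0).im ^ 2 - (X 0 0).re ^ 2 - (X 0 0).im ^ 2
      - (X 1 0).re ^ 2 - (X 1 0).im ^ 2) (by
      apply mul_left_cancel₀ hq0
      linear_combination f0)
  obtain ⟨tb, htb⟩ := Str.div_a hQ (x := (X 1 1).re)
    (A := (X 2 1).re ^ 2 + (X 2 1).im ^ 2 - (X 0 1).re ^ 2 - (X 0 1).im ^ 2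
      - (X 1 1).re ^ 2 - (X 1 1).im ^ 2) (by
      apply mul_left_cancel₀ hq0
      linear_combination f1)
  obtain ⟨P1, hP1⟩ := Str.div_c hQ (x := (X 0 1).re + (X 1 0).re)
    (A := -((X 0 0).re * (X 0 1).re + (X 0 0).im * (X 0 1).im + (X 1 0).re * (X 1 1).re
      + (X 1 0).im * (X 1 1).im - (X 2 0).re * (X 2 1).re - (X 2 0).im * (X 2 1).im)) (by
      apply mul_left_cancel₀ hq0
      linear_combination g01re)
  obtain ⟨P2, hP2⟩ := Str.div_c hQ (x := (X 1 0).im - (X 0 1).im)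
    (A := ((X 0 0).re * (X 0 1).im - (X 0 0).im * (X 0 1).re + (X 1 0).re * (X 1 1).im
      - (X 1 0).im * (X 1 1).re - (X 2 0).re * (X 2 1).im + (X 2 0).im * (X 2 1).re)) (by
      apply mul_left_cancel₀ hq0
      linear_combination -g01im)
  obtain ⟨d2, hd2⟩ := Str.div_d hQ (X 2 2).im
  obtain ⟨t2, ht2⟩ := Str.div_d hQ ((X 0 0).im + (X 1 1).im)
  obtain ⟨R1, hR1⟩ := Str.div_d hQ ((X 0 1).im + (X 1 0).im)
  obtain ⟨R2, hR2⟩ := Str.div_d hQ ((X 0 1).re - (X 1 0).re)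
  obtain ⟨R3, hR3⟩ := Str.div_d hQ ((X 0 0).im - (X 1 1).im)
  obtain ⟨s, hs⟩ := Str.div_b hQ hE
  have c1 : (g 2 2).re = 1 + Q ^ 2 * d1 := by rw [a22, hd1]
  have c2 : (g 2 2).im = Q * d2 := by rw [b22, hd2]
  have c3 : (g 0 0).re + (g 1 1).re = 2 + Q ^ 2 * (ta + tb) := by
    rw [a00, a11, hta, htb]; ring
  have c4 : (g 0 0).im + (g 1 1).im = Q * t2 := by rw [b00, b11, ← ht2]; ring
  have c5 : t2 + d2 = Q ^ 2 * s := by
    apply mul_left_cancel₀ hQ0
    linear_combination hs - ht2 - hd2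
  have c6 : (g 0 1).re + (g 1 0).re = Q ^ 2 * P1 := by rw [a01, a10, ← hP1]; ring
  have c7 : (g 1 0).im - (g 0 1).im = Q ^ 2 * P2 := by rw [b01, b10, ← hP2]; ring
  have c8 : (g 0 0).re - (g 1 1).re = Q ^ 2 * (ta - tb) := by
    rw [a00, a11, hta, htb]; ring
  have c9 : (g 0 1).im + (g 1 0).im = Q * R1 := by rw [b01, b10, ← hR1]; ring
  have c10 : (g 0 1).re - (g 1 0).re = Q * R2 := by rw [a01, a10, ← hR2]; ring
  have c11 : (g 0 0).im - (g 1 1).im = Q * R3 := by rw [b00, b11, ← hR3]; ring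
  rw [c6, c7, c8, c1, c2, c4] at i1
  rw [c9, c10, c11, c1, c2, c3] at i2
  rw [c6, c7, c8, c9, c10, c11, c2, c3, c4] at i3
  have hd2' : d2 = Q ^ 2 * s - t2 := by linarith
  refine ⟨d1, d2, ta + tb, t2, s, (P1, P2, ta - tb), (R1, R2, R3), c1, c2, c3, c4, c5, c6, c7, c8, c9,
    c10, c11, ?_, ?_, ?_⟩
  · have h4 : (Q : ℤ) ^ 4 ≠ 0 := pow_ne_zero _ hQ0
    apply mul_left_cancel₀ h4
    rw [hd2'] at i1
    simp only [dot]
    linear_combination i1
  · have h4 : (Q : ℤ) ^ 3 ≠ 0 := pow_ne_zero _ hQ0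
    apply mul_left_cancel₀ h4
    rw [hd2'] at i3
    simp only [dot]
    linear_combination i3
  · have h4 : (Q : ℤ) ^ 2 ≠ 0 := pow_ne_zero _ hQ0
    apply mul_left_cancel₀ h4
    simp only [dot]
    linear_combination i2

end Pool.Agent.SU21
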