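import Mathlib

/-!
# SU21, module Two: square roots of one, sums of two and three squares, the divisor bound
-/

set_option autoImplicit false

open Filter Topology

namespace Pool.Agent.SU21

/-! ### Square roots of one -/

lemma two_dvd_of {g m x D : ℤ} (h1 : g ∣ x - 1) (h2 : m ∣ x + 1) (h3 : g ∣ D) (h4 : m ∣ D) :
    g * m ∣ 2 * D := by
  obtain ⟨a, ha⟩ := h1
  obtain ⟨b, hb⟩ := h2
  obtain ⟨c, hc⟩ := h3
  obtain ⟨d, hd⟩ := h4
  refine ⟨b * c - a * d, ?_⟩
  have e : (2 : ℤ) = m * b - g * a := by linarith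
  calc 2 * D = (m * b - g * a) * D := by rw [e]
    _ = m * b * D - g * a * D := by ring
    _ = m * b * (g * c) - g * a * (m * d) := by rw [← hc, ← hd]
    _ = g * m * (b * c - a * d) := by ring

lemma dvd_add_one {n g m x : ℤ} (hg : g ≠ 0) (hn : n = g * m) (hgx : g = Int.gcd (x - 1) n)
    (h : n ∣ (x - 1) * (x + 1)) : m ∣ x + 1 := by
  have h1 := Int.gcd_eq_gcd_ab (x - 1) n
  rw [← hgx] at h1
  obtain ⟨c, hc⟩ := h
  have h2 : g * (x + 1) = g * (m * (c * Int.gcdA (x - 1) n + (x + 1) * Int.gcdB (x - 1) n)) := by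
    calc g * (x + 1) = ((x - 1) * Int.gcdA (x - 1) n + n * Int.gcdB (x - 1) n) * (x + 1) := by
          rw [← h1]
      _ = (x - 1) * (x + 1) * Int.gcdA (x - 1) n + n * ((x + 1) * Int.gcdB (x - 1) n) := by ring
      _ = _ := by rw [hc, hn]; ring
  exact ⟨_, mul_left_cancel₀ hg h2⟩

lemma two_torsion {n : ℕ} (hn : n ≠ 0) (s : ZMod n) (hs : 2 * s = 0) :
    s = 0 ∨ s = ((n / 2 : ℕ) : ZMod n) := by
  have : NeZero n := ⟨hn⟩
  have h1 : ((2 * s.val : ℕ) : ZMod n) = 0 := by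
    push_cast
    rw [ZMod.natCast_zmod_val, hs]
  rw [ZMod.natCast_eq_zero_iff] at h1
  have h2 := ZMod.val_lt s
  obtain ⟨c, hc⟩ := h1
  have hc2 : c < 2 := by
    by_contra hcc
    push Not at hcc
    nlinarith
  have : s = ((s.val : ℕ) : ZMod n) := (ZMod.natCast_zmod_val s).symm
  interval_cases c
  · left
    have h0 : s.val = 0 := by omega
    rw [this, h0, Nat.cast_zero]
  · right
    have h0 : s.val = n / 2 := by omega
    rw [this, h0]

/-- There are at most `2 τ(n)` square roots of one modulo `n`. -/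
lemma sqrt_one (n : ℕ) (hn : n ≠ 0) (S : Finset (ZMod n)) (hS : ∀ t ∈ S, t ^ 2 = 1) :
    S.card ≤ 2 * n.divisors.card := by
  classical
  have : NeZero n := ⟨hn⟩
  refine Finset.card_le_mul_card_image_of_maps_to
    (f := fun t : ZMod n => Int.gcd ((t.val : ℤ) - 1) n) (fun t _ => ?_) 2 (fun g hg => ?_)
  · rw [Nat.mem_divisors]
    exact ⟨Int.natCast_dvd_natCast.1 (Int.gcd_dvd_right _ _), hn⟩
  · have hsq : ∀ t ∈ S, (n : ℤ) ∣ ((t.val : ℤ) - 1) * ((t.val : ℤ) + 1) := by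
      intro t ht
      rw [← ZMod.intCast_zmod_eq_zero_iff_dvd]
      push_cast
      rw [ZMod.natCast_zmod_val]
      have := hS t ht
      linear_combination this
    rcases (S.filter fun t : ZMod n => Int.gcd ((t.val : ℤ) - 1) n = g).eq_empty_or_nonempty
      with h | ⟨t0, ht0⟩
    · rw [h]; simp
    · rw [Finset.mem_filter] at ht0
      have hg0 : (g : ℤ) ≠ 0 := by
        have := Nat.pos_of_mem_divisors hg
        positivity
      obtain ⟨m, hm⟩ : (g : ℤ) ∣ (n : ℤ) := by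
        have := Nat.dvd_of_mem_divisors hg
        exact_mod_cast this
      have hsub : (S.filter fun t : ZMod n => Int.gcd ((t.val : ℤ) - 1) n = g) ⊆
          {t0, t0 + ((n / 2 : ℕ) : ZMod n)} := by
        intro t ht
        rw [Finset.mem_filter] at ht
        have h1 : ∀ t ∈ S, Int.gcd ((t.val : ℤ) - 1) n = g →
            (g : ℤ) ∣ (t.val : ℤ) - 1 ∧ m ∣ (t.val : ℤ) + 1 := by
          intro t ht hgt
          refine ⟨?_, ?_⟩
          · rw [← hgt]; exact Int.gcd_dvd_left _ _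
          · exact dvd_add_one hg0 hm (by rw [hgt]) (hsq t ht)
        obtain ⟨a1, a2⟩ := h1 t ht.1 ht.2
        obtain ⟨b1, b2⟩ := h1 t0 ht0.1 ht0.2
        have h2 : (g : ℤ) * m ∣ 2 * ((t.val : ℤ) - t0.val) := by
          refine two_dvd_of a1 a2 ?_ ?_
          · have := dvd_sub a1 b1
            have e : (t.val : ℤ) - 1 - ((t0.val : ℤ) - 1) = (t.val : ℤ) - t0.val := by ring
            rwa [e] at this
          · have := dvd_sub a2 b2
            have e : (t.val : ℤ) + 1 - ((t0.val : ℤ) + 1) = (t.val : ℤ) - t0.val := by ring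
            rwa [e] at this
        rw [← hm, ← ZMod.intCast_zmod_eq_zero_iff_dvd] at h2
        push_cast at h2
        rw [ZMod.natCast_zmod_val, ZMod.natCast_zmod_val] at h2
        rw [Finset.mem_insert, Finset.mem_singleton]
        rcases two_torsion hn _ h2 with h3 | h3
        · left; exact sub_eq_zero.1 h3
        · right; rw [← h3]; ring
      exact (Finset.card_le_card hsub).trans Finset.card_le_two

/-! ### Sums of two squares -/

lemma sq_one_cases {A B : ℤ} (h : A ^ 2 + B ^ 2 = 1) :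
    (A = 1 ∧ B = 0) ∨ (A = -1 ∧ B = 0) ∨ (A = 0 ∧ B = 1) ∨ (A = 0 ∧ B = -1) := by
  have h1 : A ≤ 1 := by nlinarith [sq_nonneg B]
  have h2 : -1 ≤ A := by nlinarith [sq_nonneg B]
  have h3 : B ≤ 1 := by nlinarith [sq_nonneg A]
  have h4 : -1 ≤ B := by nlinarith [sq_nonneg A]
  interval_cases A <;> interval_cases B <;> simp_all

/-- Two representations in the same class differ by a fourth root of one. -/
lemma two_rot {n x y a b : ℤ} (hn : n ≠ 0) (h1 : x ^ 2 + y ^ 2 = n) (h2 : a ^ 2 + b ^ 2 = n)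
    (h3 : n ∣ x * a + y * b) (h4 : n ∣ x * b - y * a) :
    (x, y) ∈ ({(a, b), (-a, -b), (b, -a), (-b, a)} : Finset (ℤ × ℤ)) := by
  obtain ⟨A, hA⟩ := h3
  obtain ⟨B, hB⟩ := h4
  have hn2 : n ^ 2 ≠ 0 := pow_ne_zero 2 hn
  have h5 : A ^ 2 + B ^ 2 = 1 := by
    apply mul_left_cancel₀ hn2
    calc n ^ 2 * (A ^ 2 + B ^ 2) = (n * A) ^ 2 + (n * B) ^ 2 := by ring
      _ = (x * a + y * b) ^ 2 + (x * b - y * a) ^ 2 := by rw [hA, hB]
      _ = (x ^ 2 + y ^ 2) * (a ^ 2 + b ^ 2) := by ring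
      _ = n ^ 2 * 1 := by rw [h1, h2]; ring
  have hx : x = A * a + B * b := by
    apply mul_left_cancel₀ hn
    calc n * x = (a ^ 2 + b ^ 2) * x := by rw [h2]
      _ = (x * a + y * b) * a + (x * b - y * a) * b := by ring
      _ = n * (A * a + B * b) := by rw [hA, hB]; ring
  have hy : y = A * b - B * a := by
    apply mul_left_cancel₀ hn
    calc n * y = (a ^ 2 + b ^ 2) * y := by rw [h2]
      _ = (x * a + y * b) * b - (x * b - y * a) * a := by ring
      _ = n * (A * b - B * a) := by rw [hA, hB]; ring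
  simp only [Finset.mem_insert, Finset.mem_singleton, Prod.mk.injEq]
  rcases sq_one_cases h5 with ⟨rfl, rfl⟩ | ⟨rfl, rfl⟩ | ⟨rfl, rfl⟩ | ⟨rfl, rfl⟩
  · left; constructor <;> linarith
  · right; left; constructor <;> linarith
  · right; right; left; constructor <;> linarith
  · right; right; right; constructor <;> linarith

lemma prim_unit {n : ℕ} {x y : ℤ} (hc : IsCoprime x y) (h : x ^ 2 + y ^ 2 = (n : ℤ)) :
    IsUnit ((y : ℤ) : ZMod n) := by
  have h1 : IsCoprime (n : ℤ) y := by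
    rw [← h, sq y]
    exact (IsCoprime.pow_left hc).add_mul_left_left _
  obtain ⟨a, b, hab⟩ := h1
  have h2 := congrArg (fun z : ℤ => (z : ZMod n)) hab
  push_cast at h2
  rw [ZMod.natCast_self, mul_zero, zero_add] at h2
  exact IsUnit.of_mul_eq_one _ (by rw [mul_comm]; exact h2)

/-- Primitive representations as a sum of two squares. -/
lemma two_prim (n : ℕ) (hn : n ≠ 0) (S : Finset (ℤ × ℤ))
    (hS : ∀ p ∈ S, p.1 ^ 2 + p.2 ^ 2 = (n : ℤ)) (hc : ∀ p ∈ S, IsCoprime p.1 p.2) :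
    S.card ≤ 8 * n.divisors.card := by
  classical
  obtain ⟨f, hf⟩ : ∃ f : ℤ × ℤ → ZMod n,
      ∀ p, f p = ((p.1 : ℤ) : ZMod n) * ((p.2 : ℤ) : ZMod n)⁻¹ := ⟨_, fun _ => rfl⟩
  have hmul : ∀ p ∈ S, ((p.1 : ℤ) : ZMod n) = f p * ((p.2 : ℤ) : ZMod n) := by
    intro p hp
    have h1 := ZMod.mul_inv_of_unit _ (prim_unit (hc p hp) (hS p hp))
    rw [hf, mul_assoc, mul_comm (((p.2 : ℤ) : ZMod n)⁻¹), h1, mul_one]
  have hsq : ∀ p ∈ S, f p ^ 2 = -1 := by
    intro p hp
    have h1 := prim_unit (hc p hp) (hS p hp)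
    have h2 := congrArg (fun z : ℤ => (z : ZMod n)) (hS p hp)
    push_cast at h2
    rw [ZMod.natCast_self, hmul p hp] at h2
    have h3 : (f p ^ 2 - -1) * (((p.2 : ℤ) : ZMod n) ^ 2) = 0 := by
      linear_combination h2
    exact sub_eq_zero.1 (((h1.pow 2).mul_left_eq_zero).1 h3)
  have hT : (S.image f).card ≤ 2 * n.divisors.card := by
    rcases (S.image f).eq_empty_or_nonempty with h | ⟨t0, ht0⟩
    · rw [h]; simp
    · have hu : ∀ t ∈ S.image f, t ^ 2 = -1 := by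
        intro t ht
        obtain ⟨p, hp, rfl⟩ := Finset.mem_image.1 ht
        exact hsq p hp
      have h0 := hu t0 ht0
      have hinj : Function.Injective (fun t : ZMod n => t * t0) := by
        intro a b hab
        have h1 : a * t0 * (-t0) = b * t0 * (-t0) := by
          have : a * t0 = b * t0 := hab
          rw [this]
        linear_combination h1 + (a - b) * h0
      rw [← Finset.card_image_of_injective _ hinj]
      apply sqrt_one n hn
      intro t ht
      obtain ⟨s, hs, rfl⟩ := Finset.mem_image.1 ht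
      have h1 := hu s hs
      have h2 : (s * t0) ^ 2 = s ^ 2 * t0 ^ 2 := by ring
      rw [h2, h1, h0]; ring
  have hfib : ∀ t ∈ S.image f, (S.filter fun p => f p = t).card ≤ 4 := by
    intro t ht
    obtain ⟨q, hq, rfl⟩ := Finset.mem_image.1 ht
    have hsub : (S.filter fun p => f p = f q) ⊆
        {(q.1, q.2), (-q.1, -q.2), (q.2, -q.1), (-q.2, q.1)} := by
      intro p hp
      obtain ⟨hp1, hp2⟩ := Finset.mem_filter.1 hp
      have e1 := hmul p hp1
      have e2 := hmul q hq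
      have e3 := hsq q hq
      rw [hp2] at e1
      refine two_rot (n := (n : ℤ)) (by exact_mod_cast hn) (hS p hp1) (hS q hq) ?_ ?_
      · rw [← ZMod.intCast_zmod_eq_zero_iff_dvd]
        push_cast
        rw [e1, e2]
        linear_combination (((p.2 : ℤ) : ZMod n) * ((q.2 : ℤ) : ZMod n)) * e3
      · rw [← ZMod.intCast_zmod_eq_zero_iff_dvd]
        push_cast
        rw [e1, e2]
        ring
    exact (Finset.card_le_card hsub).trans Finset.card_le_four
  have h1 := Finset.card_le_mul_card_image S 4 hfib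
  calc S.card ≤ 4 * (S.image f).card := h1
    _ ≤ 4 * (2 * n.divisors.card) := Nat.mul_le_mul_left _ hT
    _ = 8 * n.divisors.card := by ring

/-- The number of representations of `n` as a sum of two squares. -/
lemma two_sq (n : ℕ) (hn : n ≠ 0) (S : Finset (ℤ × ℤ))
    (hS : ∀ p ∈ S, p.1 ^ 2 + p.2 ^ 2 = (n : ℤ)) :
    S.card ≤ 8 * n.divisors.card ^ 2 := by
  classical
  have h := Finset.card_le_mul_card_image_of_maps_to
    (f := fun p : ℤ × ℤ => Int.gcd p.1 p.2) (s := S) (t := n.divisors) (fun p hp => ?_)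
    (8 * n.divisors.card) (fun g hg => ?_)
  · calc S.card ≤ _ := h
      _ = 8 * n.divisors.card ^ 2 := by ring
  · rw [Nat.mem_divisors]
    refine ⟨?_, hn⟩
    have h1 : ((Int.gcd p.1 p.2 : ℕ) : ℤ) ∣ (n : ℤ) := by
      rw [← hS p hp]
      exact dvd_add ((Int.gcd_dvd_left _ _).trans (dvd_pow_self _ two_ne_zero))
        ((Int.gcd_dvd_right _ _).trans (dvd_pow_self _ two_ne_zero))
    exact_mod_cast h1
  · rcases (S.filter fun p : ℤ × ℤ => Int.gcd p.1 p.2 = g).eq_empty_or_nonempty with he | ⟨q, hq⟩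
    · rw [he]; simp
    obtain ⟨hq1, hq2⟩ := Finset.mem_filter.1 hq
    have hg0 : (g : ℤ) ≠ 0 := by
      have := Nat.pos_of_mem_divisors hg
      positivity
    have hdiv : ∀ p ∈ S, Int.gcd p.1 p.2 = g → ∃ a b : ℤ, p.1 = g * a ∧ p.2 = g * b ∧
        IsCoprime a b := by
      intro p hp hpg
      obtain ⟨a, ha⟩ : (g : ℤ) ∣ p.1 := by rw [← hpg]; exact Int.gcd_dvd_left _ _
      obtain ⟨b, hb⟩ : (g : ℤ) ∣ p.2 := by rw [← hpg]; exact Int.gcd_dvd_right _ _
      refine ⟨a, b, ha, hb, ?_⟩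
      have h1 := Int.gcd_eq_gcd_ab p.1 p.2
      rw [hpg] at h1
      refine ⟨Int.gcdA p.1 p.2, Int.gcdB p.1 p.2, ?_⟩
      apply mul_left_cancel₀ hg0
      calc (g : ℤ) * (Int.gcdA p.1 p.2 * a + Int.gcdB p.1 p.2 * b) =
          (g * a) * Int.gcdA p.1 p.2 + (g * b) * Int.gcdB p.1 p.2 := by ring
        _ = g := by rw [← ha, ← hb]; exact h1.symm
        _ = g * 1 := (mul_one _).symm
    obtain ⟨a0, b0, ha0, hb0, -⟩ := hdiv q hq1 hq2
    have hN := hS q hq1
    have hNn : (n : ℤ) = (g : ℤ) ^ 2 * (a0 ^ 2 + b0 ^ 2) := by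
      rw [← hN, ha0, hb0]; ring
    obtain ⟨N', hN'⟩ : ∃ N' : ℕ, (N' : ℤ) = a0 ^ 2 + b0 ^ 2 :=
      ⟨(a0 ^ 2 + b0 ^ 2).toNat, Int.toNat_of_nonneg (by positivity)⟩
    have hnN : n = g ^ 2 * N' := by
      have : (n : ℤ) = ((g ^ 2 * N' : ℕ) : ℤ) := by push_cast; rw [hN', hNn]
      exact_mod_cast this
    have hN'0 : N' ≠ 0 := by
      rintro rfl
      exact hn (by rw [hnN, mul_zero])
    have hNd : N' ∣ n := ⟨g ^ 2, by rw [hnN]; ring⟩
    have hcard : N'.divisors.card ≤ n.divisors.card :=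
      Finset.card_le_card (Nat.divisors_subset_of_dvd hn hNd)
    have hinj : Set.InjOn (fun p : ℤ × ℤ => (p.1 / (g : ℤ), p.2 / (g : ℤ)))
        (S.filter fun p : ℤ × ℤ => Int.gcd p.1 p.2 = g) := by
      intro p hp r hr hpr
      rw [Finset.mem_coe, Finset.mem_filter] at hp hr
      obtain ⟨a, b, ha, hb, -⟩ := hdiv p hp.1 hp.2
      obtain ⟨c, d, hc, hd, -⟩ := hdiv r hr.1 hr.2
      simp only [Prod.mk.injEq] at hpr
      rw [ha, hb, hc, hd, Int.mul_ediv_cancel_left _ hg0, Int.mul_ediv_cancel_left _ hg0,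
        Int.mul_ediv_cancel_left _ hg0, Int.mul_ediv_cancel_left _ hg0] at hpr
      ext
      · rw [ha, hc, hpr.1]
      · rw [hb, hd, hpr.2]
    rw [← Finset.card_image_of_injOn hinj]
    refine (two_prim N' hN'0 _ ?_ ?_).trans (Nat.mul_le_mul_left _ hcard)
    · intro r hr
      obtain ⟨p, hp, rfl⟩ := Finset.mem_image.1 hr
      rw [Finset.mem_filter] at hp
      obtain ⟨a, b, ha, hb, -⟩ := hdiv p hp.1 hp.2
      simp only
      rw [ha, hb, Int.mul_ediv_cancel_left _ hg0, Int.mul_ediv_cancel_left _ hg0]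
      apply mul_left_cancel₀ (pow_ne_zero 2 hg0)
      rw [hN', ← hNn, ← hS p hp.1, ha, hb]; ring
    · intro r hr
      obtain ⟨p, hp, rfl⟩ := Finset.mem_image.1 hr
      rw [Finset.mem_filter] at hp
      obtain ⟨a, b, ha, hb, hab⟩ := hdiv p hp.1 hp.2
      simp only
      rw [ha, hb, Int.mul_ediv_cancel_left _ hg0, Int.mul_ediv_cancel_left _ hg0]
      exact hab

/-! ### Sums of three squares -/

lemma three_sq (n : ℕ) (Θ : ℝ) (hΘ1 : 1 ≤ Θ)
    (hΘ : ∀ m : ℕ, 1 ≤ m → m ≤ n → (m.divisors.card : ℝ) ≤ Θ) (S : Finset (ℤ × ℤ × ℤ))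
    (hS : ∀ p ∈ S, p.1 ^ 2 + p.2.1 ^ 2 + p.2.2 ^ 2 = (n : ℤ)) :
    (S.card : ℝ) ≤ (2 * Real.sqrt n + 1) * (8 * Θ ^ 2) := by
  classical
  have hΘ2 : 1 ≤ Θ ^ 2 := one_le_pow₀ hΘ1
  have h := Finset.card_le_mul_card_image_of_maps_to
    (f := fun p : ℤ × ℤ × ℤ => p.1) (s := S)
    (t := Finset.Icc (-(Nat.sqrt n : ℤ)) (Nat.sqrt n : ℤ)) (fun p hp => ?_)
    ⌊8 * Θ ^ 2⌋₊ (fun a _ => ?_)
  · have hc : (Finset.Icc (-(Nat.sqrt n : ℤ)) (Nat.sqrt n : ℤ)).card = 2 * Nat.sqrt n + 1 := by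
      rw [Int.card_Icc]; omega
    rw [hc] at h
    have h1 : ((⌊8 * Θ ^ 2⌋₊ : ℕ) : ℝ) ≤ 8 * Θ ^ 2 := Nat.floor_le (by positivity)
    have h2 : ((Nat.sqrt n : ℕ) : ℝ) ≤ Real.sqrt n := Real.nat_sqrt_le_real_sqrt
    calc (S.card : ℝ) ≤ ((⌊8 * Θ ^ 2⌋₊ * (2 * Nat.sqrt n + 1) : ℕ) : ℝ) := by exact_mod_cast h
      _ = ((⌊8 * Θ ^ 2⌋₊ : ℕ) : ℝ) * (2 * (Nat.sqrt n : ℕ) + 1) := by push_cast; ring
      _ ≤ (8 * Θ ^ 2) * (2 * Real.sqrt n + 1) := by gcongr
      _ = _ := by ring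
  · have h1 := hS p hp
    have h2 : p.1 ^ 2 ≤ (n : ℤ) := by nlinarith [sq_nonneg p.2.1, sq_nonneg p.2.2]
    have h3 : p.1.natAbs ≤ Nat.sqrt n := by
      rw [Nat.le_sqrt']
      have : ((p.1.natAbs ^ 2 : ℕ) : ℤ) ≤ (n : ℤ) := by
        push_cast
        rw [sq_abs]
        exact h2
      exact_mod_cast this
    rw [Finset.mem_Icc]
    omega
  · apply Nat.le_floor
    obtain ⟨F, hF⟩ : ∃ F : Finset (ℤ × ℤ × ℤ), F = S.filter fun p : ℤ × ℤ × ℤ => p.1 = a :=
      ⟨_, rfl⟩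
    rw [← hF]
    have hinj : Set.InjOn (fun p : ℤ × ℤ × ℤ => p.2) F := by
      intro p hp r hr hpr
      rw [hF, Finset.mem_coe, Finset.mem_filter] at hp hr
      exact Prod.ext (by rw [hp.2, hr.2]) hpr
    rw [← Finset.card_image_of_injOn hinj]
    rcases F.eq_empty_or_nonempty with he | ⟨q, hq⟩
    · rw [he]; simp only [Finset.image_empty, Finset.card_empty, Nat.cast_zero]; positivity
    rw [hF, Finset.mem_filter] at hq
    have hmem : ∀ r ∈ F.image (fun p : ℤ × ℤ × ℤ => p.2), a ^ 2 + r.1 ^ 2 + r.2 ^ 2 = (n : ℤ) := by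
      intro r hr
      obtain ⟨p, hp, rfl⟩ := Finset.mem_image.1 hr
      rw [hF, Finset.mem_filter] at hp
      rw [← hp.2]
      exact hS p hp.1
    have hqa := hS q hq.1
    rw [hq.2] at hqa
    obtain ⟨m, hm⟩ : ∃ m : ℕ, (m : ℤ) = (n : ℤ) - a ^ 2 :=
      ⟨((n : ℤ) - a ^ 2).toNat, Int.toNat_of_nonneg (by
        nlinarith [sq_nonneg q.2.1, sq_nonneg q.2.2])⟩
    rcases Nat.eq_zero_or_pos m with h0 | h0
    · have hsub : F.image (fun p : ℤ × ℤ × ℤ => p.2) ⊆ {(0, 0)} := by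
        intro r hr
        have h1 := hmem r hr
        rw [h0, Nat.cast_zero] at hm
        have h2 : r.1 ^ 2 + r.2 ^ 2 = 0 := by linarith
        have h3 : r.1 ^ 2 = 0 := by nlinarith [sq_nonneg r.1, sq_nonneg r.2]
        have h4 : r.2 ^ 2 = 0 := by nlinarith [sq_nonneg r.1, sq_nonneg r.2]
        rw [Finset.mem_singleton]
        exact Prod.ext (pow_eq_zero_iff (two_ne_zero)|>.1 h3) (pow_eq_zero_iff (two_ne_zero)|>.1 h4)
      have h1 := Finset.card_le_card hsub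
      rw [Finset.card_singleton] at h1
      have h2 : ((F.image (fun p : ℤ × ℤ × ℤ => p.2)).card : ℝ) ≤ 1 := by exact_mod_cast h1
      linarith
    · have h1 := two_sq m h0.ne' (F.image (fun p : ℤ × ℤ × ℤ => p.2)) (fun r hr => by
        rw [hm]; linarith [hmem r hr])
      have hmn : m ≤ n := by
        have : (m : ℤ) ≤ (n : ℤ) := by rw [hm]; linarith [sq_nonneg a]
        exact_mod_cast this
      have h2 := hΘ m h0 hmn
      calc ((F.image (fun p : ℤ × ℤ × ℤ => p.2)).card : ℝ) ≤ ((8 * m.divisors.card ^ 2 : ℕ) : ℝ) := by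
            exact_mod_cast h1
        _ = 8 * (m.divisors.card : ℝ) ^ 2 := by push_cast; ring
        _ ≤ 8 * Θ ^ 2 := by gcongr

/-! ### The divisor bound -/

/-- threshold for small primes -/
lemma two_threshold {ε : ℝ} (hε : 0 < ε) (A : ℝ) : ∃ P0 : ℕ, 1 ≤ P0 ∧ A ≤ (P0:ℝ) ^ ε := by
  have h1 : Tendsto (fun n : ℕ => (n:ℝ) ^ ε) atTop atTop :=
    (tendsto_rpow_atTop hε).comp tendsto_natCast_atTop_atTop
  have h2 : ∀ᶠ n : ℕ in atTop, A ≤ (n:ℝ) ^ ε := h1.eventually_ge_atTop A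
  obtain ⟨n, hn⟩ := (h2.and (eventually_ge_atTop 1)).exists
  exact ⟨n, hn.2, hn.1⟩

/-- A product over prime factors with small-prime corrections is `≤ C n^ε`. -/
lemma two_prod_le {ε : ℝ} {f : ℕ → ℕ → ℝ} {B : ℝ} {P0 : ℕ} (hB : 1 ≤ B)
    (hf0 : ∀ p a, 0 ≤ f p a)
    (hsmall : ∀ p a : ℕ, p.Prime → 1 ≤ a → f p a ≤ B * ((p:ℝ) ^ a) ^ ε)
    (hlarge : ∀ p a : ℕ, p.Prime → P0 ≤ p → 1 ≤ a → f p a ≤ ((p:ℝ) ^ a) ^ ε)
    {n : ℕ} (hn : n ≠ 0) :
    ∏ p ∈ n.primeFactors, f p (n.factorization p) ≤ B ^ P0 * (n:ℝ) ^ ε := by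
  calc ∏ p ∈ n.primeFactors, f p (n.factorization p)
      ≤ ∏ p ∈ n.primeFactors, ((if p < P0 then B else 1) * ((p:ℝ) ^ (n.factorization p)) ^ ε) := by
        refine Finset.prod_le_prod (fun p _ => hf0 _ _) fun p hp => ?_
        have hp' := Nat.prime_of_mem_primeFactors hp
        have ha : 1 ≤ n.factorization p :=
          (hp'.dvd_iff_one_le_factorization hn).mp (Nat.dvd_of_mem_primeFactors hp)
        split_ifs with h
        · exact hsmall p _ hp' ha
        · rw [one_mul]; exact hlarge p _ hp' (by omega) ha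
    _ = (∏ p ∈ n.primeFactors, (if p < P0 then B else 1)) *
        ∏ p ∈ n.primeFactors, ((p:ℝ) ^ (n.factorization p)) ^ ε := Finset.prod_mul_distrib
    _ ≤ B ^ P0 * (n:ℝ) ^ ε := by
        refine mul_le_mul ?_ ?_ (Finset.prod_nonneg fun p _ => by positivity) (by positivity)
        · rw [Finset.prod_ite, Finset.prod_const, Finset.prod_const_one, mul_one]
          refine pow_le_pow_right₀ hB ?_
          calc (n.primeFactors.filter (· < P0)).card ≤ (Finset.range P0).card := by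
                apply Finset.card_le_card
                intro p hp
                rw [Finset.mem_filter] at hp
                exact Finset.mem_range.mpr hp.2
            _ = P0 := Finset.card_range _
        · rw [Real.finsetProd_rpow _ _ (fun p _ => by positivity)]
          refine le_of_eq ?_
          congr 1
          have := Nat.prod_factorization_pow_eq_self hn
          rw [Nat.prod_factorization_eq_prod_primeFactors] at this
          conv_rhs => rw [← this]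
          push_cast
          rfl

/-- The divisor bound `τ(n) ≤ C n^ε`. -/
lemma two_tau_rpow {ε : ℝ} (hε : 0 < ε) : ∃ C : ℝ, 1 ≤ C ∧ ∀ n : ℕ, n ≠ 0 →
    (n.divisors.card : ℝ) ≤ C * (n:ℝ) ^ ε := by
  obtain ⟨P0, hP1, hP0⟩ := two_threshold hε 2
  set B : ℝ := 1 + 1 / (ε * Real.log 2) with hB
  have hl2 : 0 < Real.log 2 := Real.log_pos (by norm_num)
  have hB1 : 1 ≤ B := by
    have : 0 < 1 / (ε * Real.log 2) := by positivity
    linarith
  refine ⟨B ^ P0, one_le_pow₀ hB1, fun n hn => ?_⟩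
  have hcard : (n.divisors.card : ℝ) = ∏ p ∈ n.primeFactors, ((n.factorization p : ℝ) + 1) := by
    rw [Nat.card_divisors hn]
    push_cast
    rfl
  rw [hcard]
  refine two_prod_le (ε := ε) (f := fun _ a => (a:ℝ) + 1) (B := B) (P0 := P0) hB1
    (fun _ _ => by positivity) (fun p a hp ha => ?_) (fun p a hp hP ha => ?_) hn
  · have h2p : (2:ℝ) ≤ p := by exact_mod_cast hp.two_le
    have h1 : ((2:ℝ) ^ a) ^ ε ≤ ((p:ℝ) ^ a) ^ ε :=
      Real.rpow_le_rpow (by positivity) (by gcongr) hε.le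
    have h2 : 1 + a * (ε * Real.log 2) ≤ ((2:ℝ) ^ a) ^ ε := by
      rw [Real.rpow_def_of_pos (by positivity), Real.log_pow]
      have := Real.add_one_le_exp (a * Real.log 2 * ε)
      linarith
    have h3 : (a:ℝ) + 1 ≤ B * (1 + a * (ε * Real.log 2)) := by
      have e1 : B * (1 + a * (ε * Real.log 2)) =
          1 + a + a * (ε * Real.log 2) + 1 / (ε * Real.log 2) := by
        rw [hB]; field_simp; ring
      rw [e1]
      have : 0 ≤ (a:ℝ) * (ε * Real.log 2) := by positivity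
      have : 0 < 1 / (ε * Real.log 2) := by positivity
      linarith
    calc (a:ℝ) + 1 ≤ B * (1 + a * (ε * Real.log 2)) := h3
      _ ≤ B * ((p:ℝ) ^ a) ^ ε := by
        have : 0 ≤ B := by linarith
        gcongr
        exact h2.trans h1
  · have h1 : (2:ℝ) ≤ (p:ℝ) ^ ε :=
      hP0.trans (Real.rpow_le_rpow (by positivity) (by exact_mod_cast hP) hε.le)
    have h2 : ((p:ℝ) ^ a) ^ ε = ((p:ℝ) ^ ε) ^ a := by
      rw [← Real.rpow_natCast, ← Real.rpow_mul (by positivity), mul_comm, Real.rpow_mul (by positivity),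
        Real.rpow_natCast]
    rw [h2]
    calc (a:ℝ) + 1 ≤ 2 ^ a := by
          have := Nat.lt_two_pow_self (n := a)
          exact_mod_cast this
      _ ≤ _ := by gcongr

/-- The divisor bound for polynomially bounded arguments. -/
lemma tau_poly (η : ℝ) (hη : 0 < η) : ∃ C : ℝ, 1 ≤ C ∧ ∀ T : ℝ, 1 ≤ T → ∀ n : ℕ, n ≠ 0 →
    (n : ℝ) ≤ 1000 * T ^ 8 → (n.divisors.card : ℝ) ≤ C * T ^ η := by
  obtain ⟨C, hC1, hC⟩ := two_tau_rpow (ε := η / 8) (by positivity)
  refine ⟨C * (1000 : ℝ) ^ (η / 8), ?_, fun T hT n hn hnT => ?_⟩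
  · have : (1 : ℝ) ≤ (1000 : ℝ) ^ (η / 8) := Real.one_le_rpow (by norm_num) (by positivity)
    nlinarith
  · have hT0 : (0 : ℝ) < T := by linarith
    have h1 : ((n : ℝ)) ^ (η / 8) ≤ (1000 : ℝ) ^ (η / 8) * T ^ η := by
      calc ((n : ℝ)) ^ (η / 8) ≤ (1000 * T ^ 8) ^ (η / 8) :=
            Real.rpow_le_rpow (by positivity) hnT (by positivity)
        _ = (1000 : ℝ) ^ (η / 8) * (T ^ 8) ^ (η / 8) :=
            Real.mul_rpow (by positivity) (by positivity)
        _ = (1000 : ℝ) ^ (η / 8) * T ^ η := by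
            congr 1
            rw [← Real.rpow_natCast, ← Real.rpow_mul hT0.le]
            congr 1
            push_cast
            ring
    calc (n.divisors.card : ℝ) ≤ C * (n : ℝ) ^ (η / 8) := hC n hn
      _ ≤ C * ((1000 : ℝ) ^ (η / 8) * T ^ η) := by gcongr
      _ = _ := by ring

end Pool.Agent.SU21
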